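import Pool.Agent.TH117.F5.Cases

/-!
# Tate classes on abelian varieties of dimension at most five over finite fields
-/

set_option autoImplicit false
set_option linter.unusedSectionVars false
set_option linter.unusedVariables false

namespace Pool.Agent.TH117.F5

open NumberField Pool.Agent.H204R3.CM Pool.Agent.W547.KB Pool.Agent.W547.LD Module
  Pool.Agent.W495.TA Pool.Agent.W495.TB Pool.Agent.W495.TC
open scoped TensorProduct

noncomputable section

variable {p : ℕ} [Fact p.Prime] {ν : PadicAlgCl p ≃+* ℂ}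

/-- It is enough to consider monomials. -/
theorem alg_of_mono (Ω : Type) [Field Ω] [IsAlgClosed Ω] [CharZero Ω] (Y : RedAV p ν)
    (H : ∀ (L : Type) [Field L] [NumberField L] [IsCMField L] [IsGalois ℚ L] (j : L →+* ℂ)
      (jO : L →+* Ω), Big Y.X j → ∀ (κ : Type) [Fintype κ] (I : κ → Wt Y.X L),
      Function.Injective I → (∀ g, ∑ k, tf p ν j (St j (I k)) g = 0) → Even (Fintype.card κ) →
      AlgM p ν j jO κ (fun k => tf p ν j (St j (I k))))
    (s m : ℕ) (hs0 : 0 < s) (f : (TM Ω Y) [⋀^Fin (2 * m)]→ₗ[Ω] Ω)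
    (hf : IsTateClass Ω Y s m f) : Alg Ω Y (Fin (2 * m)) f := by
  classical
  rcases isEmpty_or_nonempty Y.X.I with hI | hI
  · -- the zero-dimensional case
    have hsub : Subsingleton (TM Ω Y) := by
      have h0 : Subsingleton Y.X.H1 := ⟨fun a b => funext fun i => (hI.false i).elim⟩
      refine ⟨fun a b => ?_⟩
      have h1 : ∀ c : TM Ω Y, c = 0 := by
        intro c
        induction c using TensorProduct.induction_on with
        | zero => rfl
        | tmul x y => rw [Subsingleton.elim y 0, TensorProduct.tmul_zero]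
        | add x y hx hy => rw [hx, hy, add_zero]
      rw [h1 a, h1 b]
    rcases Nat.eq_zero_or_pos m with hm | hm
    · subst hm
      have : IsEmpty (Fin (2 * 0)) := by
        rw [mul_zero]
        infer_instance
      exact Alg.unit f
    · have : f = 0 := by
        ext v
        have h2 : v ⟨0, by omega⟩ = 0 := Subsingleton.elim _ _
        rw [f.map_coord_zero ⟨0, by omega⟩ h2]
        rfl
      rw [this]
      exact Alg.zero Y _
  obtain ⟨L, _, _, _, _, j, hj⟩ := exists_cm Y.X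
  have hYj : Big Y.X j := hj
  let jO : L →+* Ω := ((IsAlgClosed.lift : L →ₐ[ℚ] Ω) : L →+* Ω)
  obtain ⟨e, h1, h2⟩ := Pool.Agent.W67.TA.basis p ν Ω L j jO Y hYj
  refine Pool.Agent.W351.TA.expand p ν Ω L jO Y e h1 h2 _ f fun I hI => ?_
  have hbal := balanced jO Pool.Agent.W366.TA.val hYj e h1 h2 s m hs0 f hf I hI
  have hinj : Function.Injective I := by
    intro k l hkl
    by_contra hne
    exact hI (f.map_eq_zero_of_eq _ (by rw [hkl]) hne)
  have key := H L j jO hYj (Fin (2 * m)) I hinj hbal (by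
    rw [Fintype.card_fin]
    exact even_two_mul m)
  exact key Y hYj I fun k => rfl

/-- The degree of a CM field is even. -/
theorem even_finrank (A : CMPair) : Even (finrank ℚ A.E) := by
  have h1 := NumberField.InfinitePlace.card_add_two_mul_card_eq_rank A.E
  have h2 : NumberField.InfinitePlace.nrRealPlaces A.E = 0 :=
    NumberField.nrRealPlaces_eq_zero_iff.2 inferInstance
  rw [h2, zero_add] at h1
  exact ⟨_, by rw [← h1, two_mul]⟩

theorem finrank_pos' (A : CMPair) : 2 ≤ finrank ℚ A.E := by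
  obtain ⟨a, ha⟩ := even_finrank A
  have := Module.finrank_pos (R := ℚ) (M := A.E)
  omega

theorem finrank_H1 (X : CMAV) : finrank ℚ X.H1 = ∑ i, finrank ℚ (X.factor i).E :=
  Module.finrank_pi_fintype ℚ

/-- A second factor. -/
theorem rest_one {ι : Type} [Fintype ι] [DecidableEq ι] (d : ι → ℕ) (hd : ∀ i, 2 ≤ d i)
    (hsum : ∑ i, d i ≤ 10) (h9 : 9 ≤ ∑ i, d i) (he : ∀ i, Even (d i)) (i : ι) (hi : d i = 8) :
    ∃ l, l ≠ i ∧ d l = 2 ∧ ∀ k, k = i ∨ k = l := by
  have h1 := Finset.add_sum_erase Finset.univ d (Finset.mem_univ i)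
  have h2 : (Finset.univ.erase i).Nonempty := by
    rw [Finset.nonempty_iff_ne_empty]
    intro h
    rw [h, Finset.sum_empty] at h1
    omega
  obtain ⟨l, hl⟩ := h2
  have hli : l ≠ i := Finset.ne_of_mem_erase hl
  have h3 := Finset.add_sum_erase (Finset.univ.erase i) d hl
  have h4 := hd l
  refine ⟨l, hli, by omega, fun k => ?_⟩
  by_contra hk
  push Not at hk
  have hk' : k ∈ (Finset.univ.erase i).erase l :=
    Finset.mem_erase.2 ⟨hk.2, Finset.mem_erase.2 ⟨hk.1, Finset.mem_univ k⟩⟩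
  have h5 := Finset.add_sum_erase _ d hk'
  have h6 := hd k
  omega

/-- A third factor. -/
theorem rest_two {ι : Type} [Fintype ι] [DecidableEq ι] (d : ι → ℕ) (hd : ∀ i, 2 ≤ d i)
    (hsum : ∑ i, d i ≤ 10) (h9 : 9 ≤ ∑ i, d i) (i k : ι) (hik : i ≠ k) (hi : d i + d k = 8) :
    ∃ l, l ≠ i ∧ l ≠ k ∧ d l = 2 ∧ ∀ m, m = i ∨ m = k ∨ m = l := by
  have h1 := Finset.add_sum_erase Finset.univ d (Finset.mem_univ i)
  have hk : k ∈ Finset.univ.erase i := Finset.mem_erase.2 ⟨hik.symm, Finset.mem_univ k⟩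
  have h2 := Finset.add_sum_erase _ d hk
  have h3 : ((Finset.univ.erase i).erase k).Nonempty := by
    rw [Finset.nonempty_iff_ne_empty]
    intro h
    rw [h, Finset.sum_empty] at h2
    omega
  obtain ⟨l, hl⟩ := h3
  have hlk : l ≠ k := Finset.ne_of_mem_erase hl
  have hli : l ≠ i := Finset.ne_of_mem_erase (Finset.mem_of_mem_erase hl)
  have h4 := Finset.add_sum_erase _ d hl
  have h5 := hd l
  refine ⟨l, hli, hlk, by omega, fun m => ?_⟩
  by_contra hm
  push Not at hm
  have hm' : m ∈ (((Finset.univ.erase i).erase k).erase l) :=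
    Finset.mem_erase.2 ⟨hm.2.2, Finset.mem_erase.2 ⟨hm.2.1,
      Finset.mem_erase.2 ⟨hm.1, Finset.mem_univ m⟩⟩⟩
  have h6 := Finset.add_sum_erase _ d hm'
  have h7 := hd m
  omega

section

variable {Ω : Type} [Field Ω] [CharZero Ω]
  {L : Type} [Field L] [NumberField L] [IsCMField L] [IsGalois ℚ L] (j : L →+* ℂ) (jO : L →+* Ω)

/-- Permuting the four weights. -/
theorem move {X : CMAV} (l : X.I) [Fintype ((X.factor l).E →+* L)]
    (hl : Fintype.card ((X.factor l).E →+* L) = 2)
    (w : Fin 4 → Wt X L) (hinj : Function.Injective w)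
    (hsum : ∀ g, ∑ a, tf p ν j (St j (w a)) g = 0)
    (hno : ∀ a b, a ≠ b → tf p ν j (St j (w a)) ≠ -tf p ν j (St j (w b)))
    (a0 : Fin 4) (ha0 : (w a0).1 = l) :
    ∃ w' : Fin 4 → Wt X L, Function.Injective w' ∧
      (∀ g, ∑ a, tf p ν j (St j (w' a)) g = 0) ∧
      (∀ a b, a ≠ b → tf p ν j (St j (w' a)) ≠ -tf p ν j (St j (w' b))) ∧
      (w' 3).1 = l ∧ ∀ a, a ≠ 3 → (w' a).1 ≠ l := by
  classical
  have hsame : ∀ a b : Fin 4, (w a).1 = l → (w b).1 = l → a = b := by
    intro a b ha hb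
    by_contra hab
    obtain ⟨x, hx⟩ := exists_mk X (w a) l ha
    obtain ⟨y, hy⟩ := exists_mk X (w b) l hb
    obtain ⟨h1, h2, -⟩ := distinct hinj hno hab l x y hx hy
    have h3 : ({x, cc L • x, y} : Finset ((X.factor l).E →+* L)).card = 3 := by
      rw [Finset.card_eq_three]
      exact ⟨x, cc L • x, y, ((setting j (X.factor l)).ne x).symm, h1.symm, h2.symm, rfl⟩
    have h4 := Finset.card_le_univ ({x, cc L • x, y} : Finset ((X.factor l).E →+* L))
    omega
  refine ⟨fun a => w (Equiv.swap a0 3 a), fun a b h => (Equiv.swap a0 3).injective (hinj h),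
    fun g => ?_, fun a b hab => hno _ _ fun h => hab ((Equiv.swap a0 3).injective h), ?_, ?_⟩
  · rw [← hsum g]
    exact Equiv.sum_comp (Equiv.swap a0 3) fun a => tf p ν j (St j (w a)) g
  · simpa using ha0
  · intro a ha h
    have h1 := hsame _ _ h ha0
    have h2 : a = 3 := by
      have h3 := congrArg (Equiv.swap a0 3) h1
      simpa using h3
    exact ha h2

end

/-- The orbit of a factor with wide functions has at least four elements. -/
theorem wide_card {L : Type} [Field L] [NumberField L] [IsCMField L] [IsGalois ℚ L] (j : L →+* ℂ)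
    (A : CMPair) (hA : BigA A j) (hdeg : finrank ℚ A.E ≤ 6) (hw : Wide (nn p ν j A)) :
    4 ≤ finrank ℚ A.E ∧ Function.Injective (nn p ν j A) := by
  classical
  have hfin : Finite (A.E →+* L) := by
    refine Finite.of_injective (fun φ : A.E →+* L => j.comp φ) ?_
    intro φ φ' h
    ext a
    exact j.injective (RingHom.congr_fun h a)
  let _ : Fintype (A.E →+* L) := Fintype.ofFinite _
  have hc := card_emb (L := L) hA
  obtain ⟨h1, x, y, hxy, hxy', hx⟩ := Pool.Agent.W101.TC.inj_of_wide (G := L ≃ₐ[ℚ] L)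
    (X := A.E →+* L) (cc L) (setting j A).trans (by
      rw [Nat.card_eq_fintype_card, hc]
      exact hdeg) (nn p ν j A) (fun x g h => nf_smul _ _ g h x) (fun x => nn_cc A x) hw
  refine ⟨?_, h1⟩
  have h3 : ({x, cc L • x, y} : Finset (A.E →+* L)).card = 3 := by
    rw [Finset.card_eq_three]
    refine ⟨x, cc L • x, y, ((setting j A).ne x).symm, ?_, ?_, rfl⟩
    · rintro rfl
      exact hxy rfl
    · intro h
      apply hxy'
      rw [← h, nn_cc, neg_neg]
  have h4 := Finset.card_le_univ ({x, cc L • x, y} : Finset (A.E →+* L))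
  obtain ⟨a, ha⟩ := even_finrank A
  omega

/-- Bad pairs of factors. -/
theorem bad_two {L : Type} [Field L] [NumberField L] [IsCMField L] [IsGalois ℚ L] {j : L →+* ℂ}
    {A B : CMPair} (hA : BigA A j) (hB : BigA B j) (hAB : finrank ℚ A.E + finrank ℚ B.E ≤ 10)
    (hA6 : finrank ℚ A.E ≤ 6) (hB6 : finrank ℚ B.E ≤ 6) (h : IsBad p ν j A B) :
    finrank ℚ A.E = 4 ∧ finrank ℚ B.E = 4 ∧ ¬ IsGalois ℚ A.E ∧ ¬ IsGalois ℚ B.E ∧
      IntermediateField.normalClosure ℚ A.E ℂ = IntermediateField.normalClosure ℚ B.E ℂ := by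
  classical
  obtain ⟨a1, a2⟩ := wide_card j A hA hA6 h.wideA
  obtain ⟨b1, b2⟩ := wide_card j B hB hB6 h.wideB
  have hfin : ∀ C : CMPair, Finite (C.E →+* L) := by
    intro C
    refine Finite.of_injective (fun φ : C.E →+* L => j.comp φ) ?_
    intro φ φ' h
    ext a
    exact j.injective (RingHom.congr_fun h a)
  let _ : Fintype (A.E →+* L) := Fintype.ofFinite _
  let _ : Fintype (B.E →+* L) := Fintype.ofFinite _
  have hcA := card_emb (L := L) hA
  have hcB := card_emb (L := L) hB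
  have hker : ∀ g : L ≃ₐ[ℚ] L, (∀ x : A.E →+* L, g • x = x) ↔ ∀ x : B.E →+* L, g • x = x := by
    intro g
    constructor
    · intro h1 x
      exact b2 ((h.ker g).1 (fun y => by rw [h1 y]) x)
    · intro h1 x
      exact a2 ((h.ker g).2 (fun y => by rw [h1 y]) x)
  obtain ⟨c1, c2⟩ := Pool.Agent.W101.TC.clos p ν L j A B hA hB hA6 hB6
    (by
      obtain ⟨x, y, h5, h6⟩ := h.wideA
      refine ⟨x, y, ?_, ?_⟩
      · change tf p ν j (hs A j x) ≠ tf p ν j (hs A j y)
        rw [tf_hs, tf_hs]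
        exact h5
      · change tf p ν j (hs A j x) ≠ -tf p ν j (hs A j y)
        rw [tf_hs, tf_hs]
        exact h6)
    (by
      obtain ⟨x, y, h5, h6⟩ := h.wideB
      refine ⟨x, y, ?_, ?_⟩
      · change tf p ν j (hs B j x) ≠ tf p ν j (hs B j y)
        rw [tf_hs, tf_hs]
        exact h5
      · change tf p ν j (hs B j x) ≠ -tf p ν j (hs B j y)
        rw [tf_hs, tf_hs]
        exact h6)
    (by
      intro g
      simp only [tf_hs]
      exact h.ker g)
  obtain ⟨d1, d2⟩ := Pool.Agent.W101.TC.clos p ν L j B A hB hA hB6 hA6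
    (by
      obtain ⟨x, y, h5, h6⟩ := h.wideB
      refine ⟨x, y, ?_, ?_⟩
      · change tf p ν j (hs B j x) ≠ tf p ν j (hs B j y)
        rw [tf_hs, tf_hs]
        exact h5
      · change tf p ν j (hs B j x) ≠ -tf p ν j (hs B j y)
        rw [tf_hs, tf_hs]
        exact h6)
    (by
      obtain ⟨x, y, h5, h6⟩ := h.wideA
      refine ⟨x, y, ?_, ?_⟩
      · change tf p ν j (hs A j x) ≠ tf p ν j (hs A j y)
        rw [tf_hs, tf_hs]
        exact h5
      · change tf p ν j (hs A j x) ≠ -tf p ν j (hs A j y)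
        rw [tf_hs, tf_hs]
        exact h6)
    (by
      intro g
      simp only [tf_hs]
      exact (h.ker g).symm)
  have hGA : ¬ IsGalois ℚ A.E := by
    intro hG
    obtain ⟨φ, φ', h1⟩ := c2 hG
    rw [tf_hs, tf_hs] at h1
    exact h.ne φ φ' h1
  have hGB : ¬ IsGalois ℚ B.E := by
    intro hG
    obtain ⟨φ, φ', h1⟩ := d2 hG
    rw [tf_hs, tf_hs] at h1
    exact h.ne φ' φ h1.symm
  obtain ⟨u, hu⟩ := even_finrank A
  obtain ⟨v, hv⟩ := even_finrank B
  have hcase : (finrank ℚ A.E = 4 ∧ finrank ℚ B.E = 4) ∨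
      (finrank ℚ A.E = 4 ∧ finrank ℚ B.E = 6) ∨ (finrank ℚ A.E = 6 ∧ finrank ℚ B.E = 4) := by
    omega
  rcases hcase with ⟨e1, e2⟩ | ⟨e1, e2⟩ | ⟨e1, e2⟩
  · exact ⟨e1, e2, hGA, hGB, c1⟩
  · exact (not_four_six (cc L) (setting j A) (hcA.trans e1) (setting j B).trans (hcB.trans e2)
      hker).elim
  · exact (not_four_six (cc L) (setting j B) (hcB.trans e2) (setting j A).trans (hcA.trans e1)
      fun g => (hker g).symm).elim

/-- All Tate classes on abelian varieties of dimension at most five that are not exceptional. -/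
theorem five (Ω : Type) [Field Ω] [IsAlgClosed Ω] [CharZero Ω] (Y : RedAV p ν)
    (hY : finrank ℚ Y.X.H1 ≤ 10) (hex : ¬ IsExceptional Y) (s m : ℕ) (hs0 : 0 < s)
    (f : (TM Ω Y) [⋀^Fin (2 * m)]→ₗ[Ω] Ω) (hf : IsTateClass Ω Y s m f) :
    Alg Ω Y (Fin (2 * m)) f := by
  classical
  by_cases h8 : finrank ℚ Y.X.H1 ≤ 8
  · exact Pool.Agent.W495.TB.four p ν Ω Y h8 s m hs0 f hf
  have hsum : ∑ i, finrank ℚ (Y.X.factor i).E ≤ 10 := by rw [← finrank_H1]; exact hY
  have h9 : 9 ≤ ∑ i, finrank ℚ (Y.X.factor i).E := by rw [← finrank_H1]; omega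
  have hd : ∀ i, 2 ≤ finrank ℚ (Y.X.factor i).E := fun i => finrank_pos' _
  have he : ∀ i, Even (finrank ℚ (Y.X.factor i).E) := fun i => even_finrank _
  by_cases hten : ∃ i, 9 ≤ finrank ℚ (Y.X.factor i).E
  · -- a simple factor of dimension five
    obtain ⟨i, hi⟩ := hten
    have h1 := Finset.add_sum_erase Finset.univ (fun i => finrank ℚ (Y.X.factor i).E)
      (Finset.mem_univ i)
    have honly : ∀ k, k = i := by
      intro k
      by_contra hk
      have hk' : k ∈ Finset.univ.erase i := Finset.mem_erase.2 ⟨hk, Finset.mem_univ k⟩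
      have h2 := Finset.add_sum_erase _ (fun i => finrank ℚ (Y.X.factor i).E) hk'
      have h3 := hd k
      omega
    refine Pool.Agent.W495.TA.main p ν (Y.X.factor i) (by omega) Y.a Y.pos
      (Y.π i) (Y.frob i) Ω Y ?_ s m hs0 f hf
    intro k
    obtain rfl := honly k
    exact Or.inr ⟨RingHom.id _, 1, 1, one_pos, one_pos, by rw [mul_one], by
      rw [pow_one]
      rfl⟩
  push Not at hten
  refine alg_of_mono Ω Y ?_ s m hs0 f hf
  intro L _ _ _ _ j jO hYj κ _ I hI hbal heven
  have hfin : ∀ i, Finite ((Y.X.factor i).E →+* L) := by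
    intro i
    refine Finite.of_injective (fun φ : (Y.X.factor i).E →+* L => j.comp φ) ?_
    intro φ φ' h
    ext a
    exact j.injective (RingHom.congr_fun h a)
  let _ : ∀ i, Fintype ((Y.X.factor i).E →+* L) := fun i => Fintype.ofFinite _
  have hfw := finite_wt j hYj
  let _ : Fintype (Wt Y.X L) := Fintype.ofFinite _
  have hcW : Fintype.card (Wt Y.X L) ≤ 10 := (card_wt_eq j hYj).trans_le hY
  have hce : ∀ i, Fintype.card ((Y.X.factor i).E →+* L) = finrank ℚ (Y.X.factor i).E := fun i =>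
    card_emb (hYj i)
  -- a factor of dimension one such that there are no relations without opposite terms that
  -- involve it
  have hfinal : ∀ l : Y.X.I, finrank ℚ (Y.X.factor l).E = 2 →
      (∀ w : Fin 4 → Wt Y.X L, Function.Injective w →
        (∀ g, ∑ a, tf p ν j (St j (w a)) g = 0) →
        (∀ a b, a ≠ b → tf p ν j (St j (w a)) ≠ -tf p ν j (St j (w b))) →
        (w 3).1 = l → (∀ a, a ≠ 3 → (w a).1 ≠ l) → False) →
      AlgM p ν j jO κ (fun k => tf p ν j (St j (I k))) := by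
    intro l hl hfalse
    refine @reduce_four (L ≃ₐ[ℚ] L) (Wt Y.X L) _ _ _ _ (cc L) cc_cc (cc_ne_wt j Y.X)
      (fun w => tf p ν j (St j w)) (fun w g => tf_cc_wt j Y.X w g) hcW (AlgM p ν j jO)
      (closedM j jO) ?_ κ _ I hI hbal heven
    intro w hw hwsum hwno
    rcases Classical.em (∀ a, (w a).1 ≠ l) with hwl | hwl
    · exact @algM_drop p _ ν Ω _ _ L _ _ _ _ j jO Y.X l _ _ (by rw [hce l, hl]; exact hcW)
        (Fin 4) _ w hw hwsum (by rw [Fintype.card_fin]; decide) hwl
    · exfalso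
      push Not at hwl
      obtain ⟨a0, ha0⟩ := hwl
      obtain ⟨w', b1, b2, b3, b4, b5⟩ := move j l ((hce l).trans hl) w hw hwsum hwno a0 ha0
      exact hfalse w' b1 b2 b3 b4 b5
  rcases Classical.em (∃ i, 7 ≤ finrank ℚ (Y.X.factor i).E) with height | height
  · -- dimensions four and one
    obtain ⟨i, hi⟩ := height
    have hi8 : finrank ℚ (Y.X.factor i).E = 8 := by
      have h1 := hten i
      obtain ⟨a, ha⟩ := he i
      omega
    obtain ⟨l, hli, hl, hall⟩ := rest_one (fun i => finrank ℚ (Y.X.factor i).E) hd hsum h9 he i hi8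
    refine @hfinal l hl fun w c1 c2 c3 c4 c5 => ?_
    exact no_eight Y.X i l ((hce i).trans hi8) ((hce l).trans hl) w c1 c2 c3 c4 fun a ha =>
      (hall (w a).1).resolve_right (c5 a ha)
  push Not at height
  have hdeg : ∀ i, finrank ℚ (Y.X.factor i).E ≤ 6 := fun i => by have := height i; omega
  rcases Classical.em (∀ i k : Y.X.I, ¬ IsBad p ν j (Y.X.factor i) (Y.X.factor k)) with
    hbad | hbad
  · exact @small_ker p _ ν Ω _ _ L _ _ _ _ j jO Y hYj hdeg hbad κ _ I hbal heven
  push Not at hbad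
  obtain ⟨i, k, hik⟩ := hbad
  have hne : i ≠ k := by
    rintro rfl
    obtain ⟨x, -⟩ := hik.wideA
    exact hik.ne x x rfl
  have hsum2 : finrank ℚ (Y.X.factor i).E + finrank ℚ (Y.X.factor k).E ≤ 10 := by
    refine le_trans ?_ hsum
    have h1 := Finset.add_sum_erase Finset.univ (fun i => finrank ℚ (Y.X.factor i).E)
      (Finset.mem_univ i)
    have hk' : k ∈ Finset.univ.erase i := Finset.mem_erase.2 ⟨hne.symm, Finset.mem_univ k⟩
    have h2 := Finset.add_sum_erase _ (fun i => finrank ℚ (Y.X.factor i).E) hk'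
    omega
  obtain ⟨e1, e2, e3, e4, e5⟩ := bad_two (hYj i) (hYj k) hsum2 (hdeg i) (hdeg k) hik
  obtain ⟨l, hli, hlk, hl, hall⟩ := rest_two (fun i => finrank ℚ (Y.X.factor i).E) hd hsum h9 i k
    hne (by simp only [e1, e2])
  refine @hfinal l hl fun w c1 c2 c3 c4 c5 => ?_
  refine no_four hYj (i := i) (k := k) (l := l)
    ⟨hne, hli.symm, hlk.symm, e1, e2, hl, e3, e4, e5⟩ hex w c1 c2 c3 c4 fun a ha => ?_
  rcases hall (w a).1 with h | h | h
  · exact Or.inl h
  · exact Or.inr h
  · exact absurd h (c5 a ha)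

end

end Pool.Agent.TH117.F5
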