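import Pool.Agent.TH117.F5.Five
import Pool.Agent.W547.UB.Crys

/-!
# Crystalline Tate classes on abelian varieties of dimension at most five
-/

set_option autoImplicit false
set_option linter.unusedSectionVars false
set_option linter.unusedVariables false

namespace Pool.Agent.TH117.F5

open NumberField Pool.Agent.W547.KB Module Pool.Agent.W495.TA
open scoped TensorProduct

noncomputable section

variable {p : ℕ} [Fact p.Prime] {ν : PadicAlgCl p ≃+* ℂ}

/-- `V₀` is the dual space of the first crystalline cohomology group of the abelian variety `Y` over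
the extension of degree `s` of the ground field, with coefficients in the fraction field `K₀` of the
ring of Witt vectors of this extension, and `F` is its linear Frobenius endomorphism; `Ω` is an
algebraically closed field that contains `K₀`. The space `Ω ⊗ V₀` is identified with
`Ω ⊗ H_1(X, ℚ)`, where `F` is the multiplication by the `s`-th power of `π`. -/
structure IsCrystalline (Y : RedAV p ν) (s : ℕ) {K₀ Ω V₀ : Type} [Field K₀] [Field Ω]
    [CharZero Ω] [Algebra K₀ Ω] [AddCommGroup V₀] [Module K₀ V₀] (F₀ : V₀ →ₗ[K₀] V₀)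
    (e : (Ω ⊗[K₀] V₀) ≃ₗ[Ω] TM Ω Y) : Prop where
  comm : ∀ v, e (F₀.baseChange Ω v) = (F Ω Y ^ s) (e v)

/-- The form `f` on `V₀`, a class in the crystalline cohomology group of degree `2 m`, is multiplied
by `q ^ m` by the linear Frobenius endomorphism. -/
def IsTateCrys {K₀ V₀ : Type} [Field K₀] [AddCommGroup V₀] [Module K₀ V₀] (F₀ : V₀ →ₗ[K₀] V₀)
    (q m : ℕ) (f : V₀ [⋀^Fin (2 * m)]→ₗ[K₀] K₀) : Prop :=
  ∀ v : Fin (2 * m) → V₀, f (fun k => F₀ (v k)) = (q : K₀) ^ m * f v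

/-- The space `A` contains each Tate class `g` on `V₀` whose extension of scalars to `Ω` belongs to
the system `Alg`. -/
def ContainsAlg {Y : RedAV p ν} (s : ℕ) {K₀ Ω V₀ : Type} [Field K₀] [Field Ω] [CharZero Ω]
    [Algebra K₀ Ω] [AddCommGroup V₀] [Module K₀ V₀] (F₀ : V₀ →ₗ[K₀] V₀)
    (e : (Ω ⊗[K₀] V₀) ≃ₗ[Ω] TM Ω Y) {m : ℕ}
    (A : Submodule K₀ (V₀ [⋀^Fin (2 * m)]→ₗ[K₀] K₀)) : Prop :=
  ∀ (g : V₀ [⋀^Fin (2 * m)]→ₗ[K₀] K₀) (G : (TM Ω Y) [⋀^Fin (2 * m)]→ₗ[Ω] Ω),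
    IsTateCrys F₀ ((p ^ Y.a) ^ s) m g → Alg Ω Y (Fin (2 * m)) G →
      (∀ u : Fin (2 * m) → V₀, G (fun k => e ((1 : Ω) ⊗ₜ[K₀] u k)) = algebraMap K₀ Ω (g u)) →
        g ∈ A

/-- The crystalline Tate conjecture. -/
theorem crys {Y : RedAV p ν} (hY : finrank ℚ Y.X.H1 ≤ 10) (hex : ¬ IsExceptional Y) (s : ℕ)
    (hs : 0 < s) {K₀ Ω V₀ : Type} [Field K₀] [CharZero K₀] [Field Ω] [IsAlgClosed Ω] [CharZero Ω]
    [Algebra K₀ Ω] [AddCommGroup V₀] [Module K₀ V₀] [FiniteDimensional K₀ V₀]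
    (F₀ : V₀ →ₗ[K₀] V₀) (e : (Ω ⊗[K₀] V₀) ≃ₗ[Ω] TM Ω Y) (he : IsCrystalline Y s F₀ e) {m : ℕ}
    (A : Submodule K₀ (V₀ [⋀^Fin (2 * m)]→ₗ[K₀] K₀)) (hA : ContainsAlg s F₀ e A)
    (f : V₀ [⋀^Fin (2 * m)]→ₗ[K₀] K₀) (hf : IsTateCrys F₀ ((p ^ Y.a) ^ s) m f) : f ∈ A := by
  obtain ⟨G, hG⟩ := Pool.Agent.W547.UB.exists_baseChange (K := Ω) f
  let G' : (TM Ω Y) [⋀^Fin (2 * m)]→ₗ[Ω] Ω := G.compLinearMap (e.symm : TM Ω Y →ₗ[Ω] Ω ⊗[K₀] V₀)
  have hG' : ∀ v, G' (fun k => e (v k)) = G v := by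
    intro v
    change G (fun k => e.symm (e (v k))) = G v
    congr 1
    funext k
    exact e.symm_apply_apply _
  have hTate : IsTateClass Ω Y s m G' := by
    -- both sides are multilinear
    have h1 : G.compLinearMap (F₀.baseChange Ω) = (((p : Ω) ^ Y.a) ^ (m * s)) • G := by
      apply Pool.Agent.W547.UB.eq_of_restr₀
      intro u
      have h2 : (G.compLinearMap (F₀.baseChange Ω)) (fun k => (1 : Ω) ⊗ₜ[K₀] u k) =
          G (fun k => (1 : Ω) ⊗ₜ[K₀] F₀ (u k)) := rfl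
      rw [h2, hG, hf u, AlternatingMap.smul_apply, hG, map_mul, map_pow, smul_eq_mul]
      congr 1
      push_cast
      rw [← pow_mul, mul_comm s m]
    intro v
    have h3 : (fun k => (F Ω Y ^ s) (v k)) = fun k => e (F₀.baseChange Ω (e.symm (v k))) := by
      funext k
      rw [he.comm, e.apply_symm_apply]
    have h4 : v = fun k => e (e.symm (v k)) := by
      funext k
      rw [e.apply_symm_apply]
    rw [h3, hG']
    conv_rhs => rw [h4, hG']
    exact congrArg (fun g => g (fun k => e.symm (v k))) h1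
  refine hA f G' hf (five Ω Y hY hex s m hs G' hTate) fun u => ?_
  rw [hG' fun k => (1 : Ω) ⊗ₜ[K₀] u k]
  exact hG u

end

end Pool.Agent.TH117.F5
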