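import Pool.Agent.TH117.F5.Five
import Pool.Agent.W547.DR.Lim

/-!
# Numerical equivalence and poles of zeta functions for abelian varieties of dimension at most five
over finite fields
-/

set_option autoImplicit false
set_option linter.unusedSectionVars false
set_option linter.unusedVariables false

namespace Pool.Agent.TH117.F5

open NumberField Pool.Agent.H204R3.CM Pool.Agent.W547.KB Pool.Agent.W547.LD Module
  Pool.Agent.W495.TA Pool.Agent.W547.DR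
open scoped TensorProduct

noncomputable section

variable {p : ℕ} [Fact p.Prime] {ν : PadicAlgCl p ≃+* ℂ}

theorem exists_big (Y : RedAV p ν) :
    ∃ (L : Type) (_ : Field L) (_ : NumberField L) (j : L →+* ℂ), Big Y.X j := by
  rcases isEmpty_or_nonempty Y.X.I with hI | hI
  · exact ⟨ℚ, inferInstance, inferInstance, Rat.castHom ℂ, fun i => (hI.false i).elim⟩
  · obtain ⟨L, h1, h2, _, _, j, hj⟩ := exists_cm Y.X
    exact ⟨L, h1, h2, j, hj⟩

/-- Standard conjecture D. -/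
theorem fiveD (Ω : Type) [Field Ω] [IsAlgClosed Ω] [CharZero Ω] (Y : RedAV p ν)
    (hY : finrank ℚ Y.X.H1 ≤ 10) (hex : ¬ IsExceptional Y) (s r : ℕ) (hs0 : 0 < s)
    (z : (TM Ω Y) [⋀^Fin (2 * r)]→ₗ[Ω] Ω) (hz : IsTateClass Ω Y s r z)
    (ho : IsOrthogonal Ω Y z) : z = 0 := by
  obtain ⟨L, _, _, j, hj⟩ := exists_big Y
  let jO : L →+* Ω := ((IsAlgClosed.lift : L →ₐ[ℚ] Ω) : L →+* Ω)
  exact zero_of_orthogonal jO hj (fun m f hf => five Ω Y hY hex s m hs0 f hf) z hz ho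

/-- The rank formula. -/
theorem fiveRank (Ω : Type) [Field Ω] [IsAlgClosed Ω] [CharZero Ω] (Y : RedAV p ν)
    (hY : finrank ℚ Y.X.H1 ≤ 10) (hex : ¬ IsExceptional Y) (s : ℕ) (hs : 0 < s) :
    (∃ S : Sys Ω Y, CycleSystem s S) ∧
      ∀ S : Sys Ω Y, CycleSystem s S → ∀ n : ℕ, RankFormula s S n := by
  obtain ⟨L, _, _, j, hj⟩ := exists_big Y
  let jO : L →+* Ω := ((IsAlgClosed.lift : L →ₐ[ℚ] Ω) : L →+* Ω)
  have hgen : ∀ (m : ℕ) (f : (TM Ω Y) [⋀^Fin (2 * m)]→ₗ[Ω] Ω), IsTateClass Ω Y s m f →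
      Alg Ω Y (Fin (2 * m)) f := fun m f hf => five Ω Y hY hex s m hs f hf
  refine ⟨exists_sys (exists_system jO hj s), fun S hS' n => ?_⟩
  have hS := (system_iff s S).1 hS'
  exact ⟨fun z hz hn => zero_of_trivial jO hj hgen hS hz hn,
    fun z => span_iff hgen hS z, finrank_span jO hj hgen hS n⟩

/-- The pole formula for the zeta function. -/
theorem fivePole (Y : RedAV p ν)
    (hY : finrank ℚ Y.X.H1 ≤ 10) (hex : ¬ IsExceptional Y) (s : ℕ) (hs : 0 < s) :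
    (∃ S : Sys ℂ Y, CycleSystem s S) ∧
      ∀ S : Sys ℂ Y, CycleSystem s S → ∀ n : ℕ, PoleFormula s S n := by
  obtain ⟨L, _, _, j, hj⟩ := exists_big Y
  obtain ⟨h1, h2⟩ := fiveRank ℂ Y hY hex s hs
  refine ⟨h1, fun S hS n => ⟨(h2 S hS n).1, ?_⟩⟩
  rw [zeta_order hj s hs n, (h2 S hS n).2.2]
  have h3 : Submodule.span ℂ (S n : Set (Coh ℂ Y n)) = Tate ℂ Y s n := by
    ext z
    exact (h2 S hS n).2.1 z
  have h4 : finrank ℂ (Submodule.span ℂ (S n : Set (Coh ℂ Y n))) = finrank ℂ (Tate ℂ Y s n) := by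
    exact congrArg (fun T : Submodule ℂ ((TM ℂ Y) [⋀^Fin (2 * n)]→ₗ[ℂ] ℂ) => finrank ℂ T) h3
  rw [h4]

/-- The analytic form of the Tate conjecture. -/
theorem fiveAnalytic (Y : RedAV p ν)
    (hY : finrank ℚ Y.X.H1 ≤ 10) (hex : ¬ IsExceptional Y) (s : ℕ) (hs : 0 < s) :
    (∃ S : Sys ℂ Y, CycleSystem s S) ∧
      ∀ S : Sys ℂ Y, CycleSystem s S → ∀ n : ℕ, AnalyticFormula s S n := by
  obtain ⟨L, _, _, j, hj⟩ := exists_big Y
  obtain ⟨h1, h2⟩ := fiveRank ℂ Y hY hex s hs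
  refine ⟨h1, fun S hS n => ⟨(h2 S hS n).1, ?_⟩⟩
  have h3 := phi_limit hj s hs n
  have h4 : Submodule.span ℂ (S n : Set (Coh ℂ Y n)) = Tate ℂ Y s n := by
    ext z
    exact (h2 S hS n).2.1 z
  rw [(h2 S hS n).2.2]
  have h5 : finrank ℂ (Submodule.span ℂ (S n : Set (Coh ℂ Y n))) = finrank ℂ (Tate ℂ Y s n) := by
    exact congrArg (fun T : Submodule ℂ ((TM ℂ Y) [⋀^Fin (2 * n)]→ₗ[ℂ] ℂ) => finrank ℂ T) h4
  rw [h5]
  exact h3

end

end Pool.Agent.TH117.F5
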