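import Pool.Agent.W495.TC.Stms

/-!
# Abelian varieties of dimension at most five over finite fields: the exceptional case
-/

set_option autoImplicit false

namespace Pool.Agent.TH117.F5

open NumberField Pool.Agent.W547.KB Pool.Agent.W495.TA Pool.Agent.W495.TC Module

variable {p : ℕ} [Fact p.Prime] {ν : PadicAlgCl p ≃+* ℂ}

/-- `Y` has factors `A` and `B` of dimension two, with indices `i` and `k`, and a factor `S` of
dimension one, with index `l`, such that

* `S` is supersingular;
* the CM fields of `A` and `B` are not Galois over `ℚ` and have the same Galois closure;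
* there are an eigenvalue `ψ (π i)` of the Frobenius endomorphism of `A` and two eigenvalues
  `φ (π k)` and `φ' (π k)` of the Frobenius endomorphism of `B`, belonging to embeddings `φ`, `φ'` that
  are neither equal nor complex conjugate, such that the product of the two eigenvalues of `B` is
  the product of the eigenvalue of `A` and of a square root of the number `p ^ a` of elements of the
  ground field, up to a root of unity. -/
def IsExceptional (Y : RedAV p ν) : Prop :=
  ∃ i k l : Y.X.I, i ≠ k ∧ i ≠ l ∧ k ≠ l ∧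
    finrank ℚ (Y.X.factor i).E = 4 ∧ finrank ℚ (Y.X.factor k).E = 4 ∧
    finrank ℚ (Y.X.factor l).E = 2 ∧ IsSupersingular Y l ∧
    ¬ IsGalois ℚ (Y.X.factor i).E ∧ ¬ IsGalois ℚ (Y.X.factor k).E ∧
    IntermediateField.normalClosure ℚ (Y.X.factor i).E ℂ =
      IntermediateField.normalClosure ℚ (Y.X.factor k).E ℂ ∧
    ∃ (ψ : (Y.X.factor i).E →+* ℂ) (φ φ' : (Y.X.factor k).E →+* ℂ) (s : ℕ),
      φ' ≠ φ ∧ φ' ≠ ComplexEmbedding.conjugate φ ∧ 0 < s ∧
        (φ (Y.π k) * φ' (Y.π k)) ^ (2 * s) = ((ψ (Y.π i)) ^ 2 * (p : ℂ) ^ Y.a) ^ s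

end Pool.Agent.TH117.F5
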