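import Pool.Agent.TH117.F5.Fields
import Pool.Agent.TH117.F5.Defs

/-!
# The relations with four terms on products of dimension five
-/

set_option autoImplicit false
set_option linter.unusedSectionVars false
set_option linter.unusedVariables false

namespace Pool.Agent.TH117.F5

open NumberField Pool.Agent.H204R3.CM Pool.Agent.W547.KB Pool.Agent.W547.LD Module
  Pool.Agent.W495.TA Pool.Agent.W495.TB Pool.Agent.W495.TC
open scoped TensorProduct

noncomputable section

variable {p : ℕ} [Fact p.Prime] {ν : PadicAlgCl p ≃+* ℂ}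
  {L : Type} [Field L] [NumberField L] [IsCMField L] [IsGalois ℚ L] {j : L →+* ℂ}
  {Y : RedAV p ν}

theorem tf_nn (X : CMAV) (i : X.I) (φ : (X.factor i).E →+* L) :
    tf p ν j (St j (⟨i, φ⟩ : Wt X L)) = nn p ν j (X.factor i) φ := tf_hs j (X.factor i) φ

theorem exists_mk (X : CMAV) (w : Wt X L) (i : X.I) (h : w.1 = i) :
    ∃ φ : (X.factor i).E →+* L, w = ⟨i, φ⟩ := by
  subst h
  exact ⟨w.2, rfl⟩

theorem nn_cc (A : CMPair) (φ : A.E →+* L) : nn p ν j A (cc L • φ) = -nn p ν j A φ :=
  funext fun g => nf_odd (fun g => cc_comm j g) _ (isSign_eps j A) φ g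

/-- Two weights of a relation without opposite terms in one factor are neither equal nor
conjugate. -/
theorem distinct {X : CMAV} {w : Fin 4 → Wt X L} (hinj : Function.Injective w)
    (hno : ∀ a b, a ≠ b → tf p ν j (St j (w a)) ≠ -tf p ν j (St j (w b))) {a b : Fin 4}
    (hab : a ≠ b) (i : X.I) (x y : (X.factor i).E →+* L) (hx : w a = ⟨i, x⟩) (hy : w b = ⟨i, y⟩) :
    y ≠ x ∧ y ≠ cc L • x ∧ nn p ν j (X.factor i) x ≠ -nn p ν j (X.factor i) y := by
  refine ⟨?_, ?_, ?_⟩
  · rintro rfl
    exact hab (hinj (hx.trans hy.symm))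
  · rintro rfl
    apply hno b a hab.symm
    rw [hx, hy, tf_nn, tf_nn, nn_cc]
  · intro h
    apply hno a b hab
    rw [hx, hy, tf_nn, tf_nn, h]

/-- Dimensions four and one. -/
theorem no_eight (X : CMAV) (i l : X.I) [Fintype ((X.factor i).E →+* L)]
    [Fintype ((X.factor l).E →+* L)] (hi : Fintype.card ((X.factor i).E →+* L) = 8)
    (hl : Fintype.card ((X.factor l).E →+* L) = 2) (w : Fin 4 → Wt X L)
    (hinj : Function.Injective w) (hsum : ∀ g, ∑ a, tf p ν j (St j (w a)) g = 0)
    (hno : ∀ a b, a ≠ b → tf p ν j (St j (w a)) ≠ -tf p ν j (St j (w b)))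
    (h3 : (w 3).1 = l) (h0 : ∀ a, a ≠ 3 → (w a).1 = i) : False := by
  obtain ⟨e, he⟩ := exists_mk X (w 3) l h3
  obtain ⟨x, hx⟩ := exists_mk X (w 0) i (h0 0 (by decide))
  obtain ⟨y, hy⟩ := exists_mk X (w 1) i (h0 1 (by decide))
  obtain ⟨z, hz⟩ := exists_mk X (w 2) i (h0 2 (by decide))
  obtain ⟨a1, a2, a3⟩ := distinct hinj hno (by decide : (0 : Fin 4) ≠ 1) i x y hx hy
  obtain ⟨b1, b2, b3⟩ := distinct hinj hno (by decide : (0 : Fin 4) ≠ 2) i x z hx hz
  obtain ⟨c1, c2, c3⟩ := distinct hinj hno (by decide : (1 : Fin 4) ≠ 2) i y z hy hz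
  refine no82 (cc L) (setting j (X.factor i)) hi (Dec p ν j) (eps j (X.factor i))
    (isSign_eps j (X.factor i)) (nn p ν j (X.factor l) e)
    (char_or_zero (cc L) (setting j (X.factor l)) hl (Dec p ν j) (eps j (X.factor l))
    (isSign_eps j (X.factor l)) e) x y z a1 a2 b1 b2 c1 c2 a3 b3 c3 ?_
  intro g
  have h := hsum g
  rw [Fin.sum_univ_four, he, hx, hy, hz, tf_nn, tf_nn, tf_nn, tf_nn] at h
  exact h

/-- Three elements of an orbit with four elements. -/
theorem three_four {G X : Type} [Group G] [Fintype X] [MulAction G X] (c : G)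
    (hset : Setting G X c) (hcard : Fintype.card X = 4) (x y z : X) (h1 : y ≠ x) (h2 : y ≠ c • x)
    (h3 : z ≠ x) (h4 : z ≠ c • x) (h5 : z ≠ y) (h6 : z ≠ c • y) : False := by
  classical
  have hcc : ∀ x : X, c • c • x = x := fun x => by rw [← mul_smul, hset.sq, one_smul]
  have hcard4 : ({x, c • x, y, c • y} : Finset X).card = 4 := by
    rw [Finset.card_insert_of_notMem, Finset.card_insert_of_notMem,
      Finset.card_insert_of_notMem, Finset.card_singleton]
    · rw [Finset.mem_singleton]; exact (hset.ne y).symm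
    · simp only [Finset.mem_insert, Finset.mem_singleton, not_or]
      exact ⟨fun h => h2 h.symm, fun h => h1 (smul_left_cancel c h).symm⟩
    · simp only [Finset.mem_insert, Finset.mem_singleton, not_or]
      refine ⟨(hset.ne x).symm, fun h => h1 h.symm, fun h => ?_⟩
      apply h2
      rw [h, hcc]
  have huniv : ({x, c • x, y, c • y} : Finset X) = Finset.univ :=
    Finset.eq_univ_of_card _ (by rw [hcard4, hcard])
  have h7 : z ∈ ({x, c • x, y, c • y} : Finset X) := by rw [huniv]; exact Finset.mem_univ _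
  simp only [Finset.mem_insert, Finset.mem_singleton] at h7
  rcases h7 with h7 | h7 | h7 | h7
  · exact h3 h7
  · exact h4 h7
  · exact h5 h7
  · exact h6 h7

/-- The data of two surfaces and an elliptic curve. -/
structure Two (p : ℕ) [Fact p.Prime] (ν : PadicAlgCl p ≃+* ℂ) (Y : RedAV p ν) (i k l : Y.X.I) :
    Prop where
  ik : i ≠ k
  il : i ≠ l
  kl : k ≠ l
  di : finrank ℚ (Y.X.factor i).E = 4
  dk : finrank ℚ (Y.X.factor k).E = 4
  dl : finrank ℚ (Y.X.factor l).E = 2
  gi : ¬ IsGalois ℚ (Y.X.factor i).E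
  gk : ¬ IsGalois ℚ (Y.X.factor k).E
  cl : IntermediateField.normalClosure ℚ (Y.X.factor i).E ℂ =
      IntermediateField.normalClosure ℚ (Y.X.factor k).E ℂ

theorem Two.symm {i k l : Y.X.I} (h : Two p ν Y i k l) : Two p ν Y k i l :=
  ⟨h.ik.symm, h.kl, h.il, h.dk, h.di, h.dl, h.gk, h.gi, h.cl.symm⟩

/-- The exceptional case. -/
theorem exc (hYj : Big Y.X j) {i k l : Y.X.I} (h : Two p ν Y i k l) (hss : IsSupersingular Y l)
    (x y : (Y.X.factor k).E →+* L) (z : (Y.X.factor i).E →+* L) (hxy : y ≠ x)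
    (hxy' : y ≠ cc L • x)
    (hsum : ∀ g, nn p ν j (Y.X.factor k) x g + nn p ν j (Y.X.factor k) y g +
      nn p ν j (Y.X.factor i) z g = 0) : IsExceptional Y := by
  obtain ⟨s, hs, hrel⟩ := eigen_rel hYj i k x y (cc L • z) (fun g => by
    have h1 := hsum g
    have h2 := congrFun (nn_cc (p := p) (ν := ν) (j := j) (Y.X.factor i) z) g
    rw [Pi.neg_apply] at h2
    rw [h2]
    linarith)
  have hjinj : ∀ (A : CMPair) (x y : A.E →+* L), j.comp x = j.comp y → x = y := by
    intro A x y h
    ext a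
    exact j.injective (RingHom.congr_fun h a)
  refine ⟨i, k, l, h.ik, h.il, h.kl, h.di, h.dk, h.dl, hss, h.gi, h.gk, h.cl,
    j.comp (cc L • z), j.comp x, j.comp y, s, fun h' => hxy (hjinj _ _ _ h'), ?_, hs, ?_⟩
  · rw [← comp_smul_cc]
    exact fun h' => hxy' (hjinj _ _ _ h')
  · have h1 := congrArg j hrel
    rw [map_pow, map_mul, map_pow, map_mul, map_pow, map_pow, map_natCast] at h1
    exact h1

/-- Dimensions two, two and one. -/
theorem no_four (hYj : Big Y.X j) {i k l : Y.X.I} (h : Two p ν Y i k l) (hex : ¬ IsExceptional Y)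
    [Fintype ((Y.X.factor i).E →+* L)] [Fintype ((Y.X.factor k).E →+* L)]
    [Fintype ((Y.X.factor l).E →+* L)] (w : Fin 4 → Wt Y.X L)
    (hinj : Function.Injective w) (hsum : ∀ g, ∑ a, tf p ν j (St j (w a)) g = 0)
    (hno : ∀ a b, a ≠ b → tf p ν j (St j (w a)) ≠ -tf p ν j (St j (w b)))
    (h3 : (w 3).1 = l) (h0 : ∀ a, a ≠ 3 → (w a).1 = i ∨ (w a).1 = k) : False := by
  have hci : Fintype.card ((Y.X.factor i).E →+* L) = 4 := (card_emb (hYj i)).trans h.di
  have hck : Fintype.card ((Y.X.factor k).E →+* L) = 4 := (card_emb (hYj k)).trans h.dk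
  have hcl : Fintype.card ((Y.X.factor l).E →+* L) = 2 := (card_emb (hYj l)).trans h.dl
  obtain ⟨e, he⟩ := exists_mk Y.X (w 3) l h3
  rcases char_or_zero (cc L) (setting j (Y.X.factor l)) hcl (Dec p ν j) (eps j (Y.X.factor l))
    (isSign_eps j (Y.X.factor l)) e with hz | hchar
  · have hss : IsSupersingular Y l := supersingular_of_zero hYj l e hz
    have hsum' : ∀ g, tf p ν j (St j (w 0)) g + tf p ν j (St j (w 1)) g +
        tf p ν j (St j (w 2)) g = 0 := by
      intro g
      have h4 := hsum g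
      rw [Fin.sum_univ_four, he, tf_nn Y.X l e] at h4
      have h5 : nn p ν j (Y.X.factor l) e g = 0 := congrFun hz g
      rw [h5, add_zero] at h4
      exact h4
    -- three weights in one factor
    have hthree : ∀ i' : Y.X.I, ∀ [Fintype ((Y.X.factor i').E →+* L)],
        Fintype.card ((Y.X.factor i').E →+* L) = 4 →
        (w 0).1 = i' → (w 1).1 = i' → (w 2).1 = i' → False := by
      intro i' _ hc' e0 e1 e2
      obtain ⟨x, hx⟩ := exists_mk Y.X (w 0) i' e0
      obtain ⟨y, hy⟩ := exists_mk Y.X (w 1) i' e1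
      obtain ⟨z, hz⟩ := exists_mk Y.X (w 2) i' e2
      obtain ⟨a1, a2, a3⟩ := distinct hinj hno (by decide : (0 : Fin 4) ≠ 1) i' x y hx hy
      obtain ⟨b1, b2, b3⟩ := distinct hinj hno (by decide : (0 : Fin 4) ≠ 2) i' x z hx hz
      obtain ⟨c1, c2, c3⟩ := distinct hinj hno (by decide : (1 : Fin 4) ≠ 2) i' y z hy hz
      exact three_four (cc L) (setting j (Y.X.factor i')) hc' x y z a1 a2 b1 b2 c1 c2
    -- two weights in one factor
    have htwo : ∀ (i' k' : Y.X.I), Two p ν Y i' k' l → ∀ a b d : Fin 4, a ≠ b →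
        (∀ g, tf p ν j (St j (w a)) g + tf p ν j (St j (w b)) g +
          tf p ν j (St j (w d)) g = 0) → (w a).1 = k' → (w b).1 = k' → (w d).1 = i' → False := by
      intro i' k' h' a b d hab hs ea eb ed
      obtain ⟨x, hx⟩ := exists_mk Y.X (w a) k' ea
      obtain ⟨y, hy⟩ := exists_mk Y.X (w b) k' eb
      obtain ⟨z, hz⟩ := exists_mk Y.X (w d) i' ed
      obtain ⟨a1, a2, a3⟩ := distinct hinj hno hab k' x y hx hy
      refine hex (exc hYj h' hss x y z a1 a2 fun g => ?_)
      have h6 := hs g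
      rw [hx, hy, hz, tf_nn, tf_nn, tf_nn] at h6
      exact h6
    rcases h0 0 (by decide) with e0 | e0 <;> rcases h0 1 (by decide) with e1 | e1 <;>
      rcases h0 2 (by decide) with e2 | e2
    · exact hthree i hci e0 e1 e2
    · exact htwo k i h.symm 0 1 2 (by decide) hsum' e0 e1 e2
    · exact htwo k i h.symm 0 2 1 (by decide) (fun g => by have := hsum' g; linarith) e0 e2 e1
    · exact htwo i k h 1 2 0 (by decide) (fun g => by have := hsum' g; linarith) e1 e2 e0
    · exact htwo k i h.symm 1 2 0 (by decide) (fun g => by have := hsum' g; linarith) e1 e2 e0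
    · exact htwo i k h 0 2 1 (by decide) (fun g => by have := hsum' g; linarith) e0 e2 e1
    · exact htwo i k h 0 1 2 (by decide) hsum' e0 e1 e2
    · exact hthree k hck e0 e1 e2
  · -- the elliptic curve is ordinary
    have hdot : ∀ a : Fin 4, a ≠ 3 →
        dot (tf p ν j (St j (w a))) (nn p ν j (Y.X.factor l) e) = 0 := by
      intro a ha
      rcases h0 a ha with ea | ea
      · obtain ⟨x, hx⟩ := exists_mk Y.X (w a) i ea
        obtain ⟨g, u, v, hu, hv⟩ := exists_nonreg j (Y.X.factor i) (hYj i) h.gi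
        rw [hx, tf_nn]
        exact dot_four (cc L) (setting j (Y.X.factor i)) hci (Dec p ν j) _ (isSign_eps j _) _
          hchar g u v hu hv x
      · obtain ⟨x, hx⟩ := exists_mk Y.X (w a) k ea
        obtain ⟨g, u, v, hu, hv⟩ := exists_nonreg j (Y.X.factor k) (hYj k) h.gk
        rw [hx, tf_nn]
        exact dot_four (cc L) (setting j (Y.X.factor k)) hck (Dec p ν j) _ (isSign_eps j _) _
          hchar g u v hu hv x
    have h4 : tf p ν j (St j (w 0)) + tf p ν j (St j (w 1)) + tf p ν j (St j (w 2)) +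
        nn p ν j (Y.X.factor l) e = 0 := by
      funext g
      have h5 := hsum g
      rw [Fin.sum_univ_four, he, tf_nn Y.X l e] at h5
      exact h5
    have h5 := congrArg (fun u => dot u (nn p ν j (Y.X.factor l) e)) h4
    simp only [dot_add, dot_zero] at h5
    rw [hdot 0 (by decide), hdot 1 (by decide), hdot 2 (by decide)] at h5
    have h6 := hchar.dot_pos
    simp only [zero_add] at h5
    exact h6.ne' h5

end

end Pool.Agent.TH117.F5
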