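import Pool.Agent.TH117.F5.Hexa

/-!
# Combinatorics: relations between three functions in an orbit of eight elements and a quadratic
character, or between functions in orbits of four elements and a quadratic character
-/

set_option autoImplicit false
set_option linter.unusedSectionVars false
set_option linter.unusedVariables false

namespace Pool.Agent.TH117.F5

open Pool.Agent.W495.TA

variable {G X : Type} [Group G] [Fintype G] [MulAction G X]

theorem nf_smul (D : Subgroup G) (ε : X → ℤ) (g h : G) (x : X) :
    nf D ε (g • x) h = nf D ε x (h * g) := by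
  unfold nf
  refine Finset.sum_congr rfl fun d _ => ?_
  rw [mul_smul]

theorem nf_odd {c : G} (hc : ∀ g, c * g = g * c) (D : Subgroup G) {ε : X → ℤ} (hε : IsSign c ε)
    (x : X) (g : G) : nf D ε (c • x) g = -nf D ε x g := by
  classical
  unfold nf
  rw [← Finset.sum_neg_distrib]
  refine Finset.sum_congr rfl fun d _ => ?_
  by_cases hd : d ∈ D
  · rw [if_pos hd, if_pos hd]
    have h1 : d • g • c • x = c • d • g • x := by
      rw [← mul_smul, ← mul_smul, ← mul_smul, ← mul_smul]
      congr 1
      rw [mul_assoc, ← hc g, ← mul_assoc, ← hc d, mul_assoc]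
    rw [h1, hε.odd]
  · rw [if_neg hd, if_neg hd, neg_zero]

/-- The functions are invariant under left translations by `D`. -/
theorem nf_left (D : Subgroup G) (ε : X → ℤ) (x : X) (d g : G) (hd : d ∈ D) :
    nf D ε x (d * g) = nf D ε x g := by
  classical
  unfold nf
  rw [← Equiv.sum_comp (Equiv.mulRight d) (fun d' : G => if d' ∈ D then ε (d' • g • x) else 0)]
  refine Finset.sum_congr rfl fun d' _ => ?_
  have h1 : d' * d ∈ D ↔ d' ∈ D := D.mul_mem_cancel_right hd
  change _ = if d' * d ∈ D then ε ((d' * d) • g • x) else 0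
  by_cases h2 : d' ∈ D
  · rw [if_pos h2, if_pos (h1.2 h2)]
    simp only [mul_smul]
  · rw [if_neg h2, if_neg (fun h3 => h2 (h1.1 h3))]

/-- A nonzero odd function on `G` which is semi-invariant under right translations. -/
structure IsChar (c : G) (D : Subgroup G) (h : G → ℤ) : Prop where
  odd : ∀ x, h (x * c) = -h x
  semi : ∀ g : G, (∀ x, h (x * g) = h x) ∨ ∀ x, h (x * g) = -h x
  left : ∀ d ∈ D, ∀ x, h (d * x) = h x
  val : h 1 = Nat.card D ∨ h 1 = -Nat.card D

section

variable {c : G} {D : Subgroup G} {h : G → ℤ}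

theorem IsChar.dot_pos (hh : IsChar c D h) : 0 < dot h h := by
  rcases (dot_self_nonneg h).eq_or_lt with h0 | h0
  · exfalso
    have h1 := congrFun (eq_zero_of_dot_self h0.symm) 1
    have h2 : 0 < Nat.card D := Nat.card_pos
    rcases hh.val with h3 | h3 <;> rw [h1, Pi.zero_apply] at h3 <;> omega
  · exact h0

theorem IsChar.dot_smul (hh : IsChar c D h) (u : G → ℤ) (g : G) :
    ((∀ x, h (x * g) = h x) ∧ dot (fun x => u (x * g)) h = dot u h) ∨
      ((∀ x, h (x * g) = -h x) ∧ dot (fun x => u (x * g)) h = -dot u h) := by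
  rcases hh.semi g with h1 | h1
  · left
    refine ⟨h1, ?_⟩
    rw [← dot_tr u h g]
    congr 1
    funext x
    exact (h1 x).symm
  · right
    refine ⟨h1, ?_⟩
    have h2 : h = -fun x => h (x * g) := by
      funext x
      rw [Pi.neg_apply, h1, neg_neg]
    rw [← dot_tr u h g, dot_comm]
    conv_lhs => rw [h2]
    rw [dot_neg, dot_comm]

theorem IsChar.fix (hh : IsChar c D h) {d : G} (hd : d ∈ D) (x : G) : h (x * d) = h x := by
  rcases hh.semi d with h1 | h1
  · exact h1 x
  · exfalso
    have h2 := h1 1
    have h3 := hh.left d hd 1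
    rw [mul_one] at h3
    rw [one_mul, h3] at h2
    have h4 : 0 < Nat.card D := Nat.card_pos
    rcases hh.val with h5 | h5 <;> omega

end

/-- No relation between three functions of an orbit with eight elements and a character. -/
theorem no82 [Fintype X] (c : G) (hset : Setting G X c) (hcard : Fintype.card X = 8)
    (D : Subgroup G) (ε : X → ℤ) (hε : IsSign c ε) (h : G → ℤ) (hh : h = 0 ∨ IsChar c D h)
    (x1 x2 x3 : X)
    (h12 : x2 ≠ x1) (h12' : x2 ≠ c • x1) (h13 : x3 ≠ x1) (h13' : x3 ≠ c • x1) (h23 : x3 ≠ x2)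
    (h23' : x3 ≠ c • x2) (n12 : nf D ε x1 ≠ -nf D ε x2) (n13 : nf D ε x1 ≠ -nf D ε x3)
    (n23 : nf D ε x2 ≠ -nf D ε x3)
    (hsum : ∀ g, nf D ε x1 g + nf D ε x2 g + nf D ε x3 g + h g = 0) : False := by
  classical
  rcases hh with rfl | hh
  · have h1 := hexa c hset hcard (nf D ε) (fun g h x => nf_smul D ε g h x)
      (fun x g => nf_odd hset.comm D hε x g) x1 x2 x3 h12 h12' h13 h13' h23 h23'
      (fun g => by have := hsum g; rwa [Pi.zero_apply, add_zero] at this)
    apply n12
    rw [h1, h1, neg_zero]
  set H := dot h h with hH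
  have hHpos : 0 < H := hh.dot_pos
  let A : X → ℤ := fun x => dot (nf D ε x) h
  have hnfg : ∀ (g : G) (x : X), nf D ε (g • x) = fun y => nf D ε x (y * g) := fun g x =>
    funext fun y => nf_smul D ε g y x
  have hA : ∀ (g : G) (x : X), ((∀ y, h (y * g) = h y) ∧ A (g • x) = A x) ∨
      ((∀ y, h (y * g) = -h y) ∧ A (g • x) = -A x) := by
    intro g x
    have h1 := hh.dot_smul (nf D ε x) g
    rw [← hnfg] at h1
    exact h1
  have hAc : ∀ x, A (c • x) = -A x := by
    intro x
    have h1 : nf D ε (c • x) = -nf D ε x := funext fun g => nf_odd hset.comm D hε x g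
    change dot (nf D ε (c • x)) h = -dot (nf D ε x) h
    rw [h1, dot_neg]
  have hAsum : A x1 + A x2 + A x3 = -H := by
    change dot (nf D ε x1) h + dot (nf D ε x2) h + dot (nf D ε x3) h = -dot h h
    rw [← dot_add, ← dot_add, ← dot_neg]
    congr 1
    funext g
    have := hsum g
    simp only [Pi.add_apply, Pi.neg_apply]
    linarith
  have key := hexa c hset hcard (fun x y => H * nf D ε x y - A x * h y)
    (by
      intro g y x
      change H * nf D ε (g • x) y - A (g • x) * h y = H * nf D ε x (y * g) - A x * h (y * g)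
      rw [nf_smul]
      rcases hA g x with ⟨h1, h2⟩ | ⟨h1, h2⟩
      · rw [h1, h2]
      · rw [h1, h2]
        ring)
    (by
      intro x y
      change H * nf D ε (c • x) y - A (c • x) * h y = -(H * nf D ε x y - A x * h y)
      rw [nf_odd hset.comm D hε, hAc]
      ring) x1 x2 x3 h12 h12' h13 h13' h23 h23'
    (by
      intro g
      change H * nf D ε x1 g - A x1 * h g + (H * nf D ε x2 g - A x2 * h g) +
        (H * nf D ε x3 g - A x3 * h g) = 0
      have h1 := hsum g
      have h2 : nf D ε x1 g + nf D ε x2 g + nf D ε x3 g = -h g := by linarith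
      calc _ = H * (nf D ε x1 g + nf D ε x2 g + nf D ε x3 g) - (A x1 + A x2 + A x3) * h g := by
            ring
        _ = 0 := by rw [h2, hAsum]; ring)
  have hkey : ∀ x g, H * nf D ε x g = A x * h g := by
    intro x g
    have := congrFun (key x) g
    simp only [Pi.zero_apply] at this
    linarith
  have hAabs : ∀ x, A x = A x1 ∨ A x = -A x1 := by
    intro x
    obtain ⟨g, hg⟩ := hset.trans x1 x
    rcases hA g x1 with ⟨-, h2⟩ | ⟨-, h2⟩
    · left; rw [← hg, h2]
    · right; rw [← hg, h2]
  have hopp : ∀ x y, A x = -A y → nf D ε x = -nf D ε y := by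
    intro x y hxy
    funext g
    have e1 := hkey x g
    have e2 := hkey y g
    rw [hxy] at e1
    rw [Pi.neg_apply]
    have e3 : H * nf D ε x g = H * -nf D ε y g := by
      rw [e1, mul_neg, e2]
      ring
    exact mul_left_cancel₀ hHpos.ne' e3
  have hA12 : A x2 = A x1 := by
    rcases hAabs x2 with h1 | h1
    · exact h1
    · exfalso
      apply n12
      apply hopp
      rw [h1, neg_neg]
  have hA13 : A x3 = A x1 := by
    rcases hAabs x3 with h1 | h1
    · exact h1
    · exfalso
      apply n13
      apply hopp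
      rw [h1, neg_neg]
  have hA3 : 3 * A x1 = -H := by
    rw [hA12, hA13] at hAsum
    linarith
  -- the orbit
  have hAne : ∀ x, A x ≠ 0 := by
    intro x h0
    rcases hAabs x with h1 | h1 <;> omega
  let O : Finset X := Finset.univ.filter fun x => A x = A x1
  have hO : ∀ x, x ∈ O ↔ A x = A x1 := fun x => by
    simp only [O, Finset.mem_filter, Finset.mem_univ, true_and]
  have hOc : Finset.univ.filter (fun x => ¬ A x = A x1) = O.image fun x => c • x := by
    ext x
    simp only [Finset.mem_filter, Finset.mem_univ, true_and, Finset.mem_image]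
    constructor
    · intro h1
      have h2 := (hAabs x).resolve_left h1
      refine ⟨c • x, ?_, ?_⟩
      · rw [hO, hAc, h2, neg_neg]
      · rw [← mul_smul, hset.sq, one_smul]
    · rintro ⟨y, hy, rfl⟩
      rw [hO] at hy
      rw [hAc, hy]
      intro h2
      apply hAne x1
      omega
  have hOcard : O.card = 4 := by
    have h1 := Finset.card_filter_add_card_filter_not (s := (Finset.univ : Finset X))
      (fun x => A x = A x1)
    rw [hOc, Finset.card_image_of_injective _ (MulAction.injective c), Finset.card_univ,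
      hcard] at h1
    change O.card + O.card = 8 at h1
    omega
  have hsum1 : ∑ x ∈ O, nf D ε x 1 = Nat.card D * ∑ x ∈ O, ε x := by
    unfold nf
    rw [Finset.sum_comm]
    have h1 : ∀ d : G, ∑ x ∈ O, (if d ∈ D then ε (d • (1 : G) • x) else 0) =
        if d ∈ D then ∑ x ∈ O, ε x else 0 := by
      intro d
      by_cases hd : d ∈ D
      · rw [if_pos hd]
        have h2 : ∀ x, x ∈ O ↔ d • x ∈ O := by
          intro x
          rw [hO, hO]
          rcases hA d x with ⟨-, h3⟩ | ⟨h3, -⟩
          · rw [h3]
          · exfalso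
            have h4 := h3 1
            rw [hh.fix hd] at h4
            have h5 : 0 < Nat.card D := Nat.card_pos
            rcases hh.val with h6 | h6 <;> omega
        refine Finset.sum_bij (fun x _ => d • x) (fun x hx => (h2 x).1 hx)
          (fun x _ y _ hxy => smul_left_cancel d hxy) ?_ ?_
        · intro y hy
          refine ⟨d⁻¹ • y, ?_, smul_inv_smul d y⟩
          rw [h2, smul_inv_smul]
          exact hy
        · intro x hx
          rw [if_pos hd, one_smul]
      · rw [if_neg hd]
        exact Finset.sum_eq_zero fun x _ => if_neg hd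
    rw [Finset.sum_congr rfl fun d _ => h1 d, ← Finset.sum_filter, Finset.sum_const,
      nsmul_eq_mul]
    congr 2
    rw [Nat.card_eq_fintype_card, Fintype.card_subtype]
  have hval : ∀ x ∈ O, 3 * nf D ε x 1 = -h 1 := by
    intro x hx
    rw [hO] at hx
    have e1 := hkey x 1
    rw [hx] at e1
    have e2 : H * (3 * nf D ε x 1) = H * (-h 1) := by
      calc H * (3 * nf D ε x 1) = 3 * (H * nf D ε x 1) := by ring
        _ = (3 * A x1) * h 1 := by rw [e1]; ring
        _ = H * (-h 1) := by rw [hA3]; ring
    exact mul_left_cancel₀ hHpos.ne' e2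
  have h1 : 3 * ∑ x ∈ O, nf D ε x 1 = -(4 * h 1) := by
    rw [Finset.mul_sum, Finset.sum_congr rfl hval, Finset.sum_const, hOcard]
    simp
  rw [hsum1] at h1
  have h2 : (0 : ℤ) < Nat.card D := by exact_mod_cast (Nat.card_pos : 0 < Nat.card D)
  rcases hh.val with h3 | h3
  · rw [h3] at h1
    have h4 : (Nat.card D : ℤ) * (3 * ∑ x ∈ O, ε x) = Nat.card D * (-4) := by linarith
    have h5 := mul_left_cancel₀ h2.ne' h4
    omega
  · rw [h3] at h1
    have h4 : (Nat.card D : ℤ) * (3 * ∑ x ∈ O, ε x) = Nat.card D * 4 := by linarith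
    have h5 := mul_left_cancel₀ h2.ne' h4
    omega

/-- On an orbit with four elements on which the action is not regular, all functions are orthogonal
to all odd characters. -/
theorem dot_four [Fintype X] (c : G) (hset : Setting G X c) (hcard : Fintype.card X = 4)
    (D : Subgroup G) (ε : X → ℤ) (hε : IsSign c ε) (h : G → ℤ) (hh : IsChar c D h)
    (g : G) (x y : X) (hx : g • x = x) (hy : g • y ≠ y) (z : X) : dot (nf D ε z) h = 0 := by
  classical
  have hnfg : ∀ (g : G) (x : X), nf D ε (g • x) = fun y => nf D ε x (y * g) := fun g x =>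
    funext fun y => nf_smul D ε g y x
  have hcc : ∀ x : X, c • c • x = x := fun x => by rw [← mul_smul, hset.sq, one_smul]
  have hA : ∀ (g : G) (x : X), ((∀ y, h (y * g) = h y) ∧ dot (nf D ε (g • x)) h = dot (nf D ε x) h) ∨
      ((∀ y, h (y * g) = -h y) ∧ dot (nf D ε (g • x)) h = -dot (nf D ε x) h) := by
    intro g x
    have h1 := hh.dot_smul (nf D ε x) g
    rw [← hnfg] at h1
    exact h1
  have hAc : ∀ x, dot (nf D ε (c • x)) h = -dot (nf D ε x) h := by
    intro x
    have h1 : nf D ε (c • x) = -nf D ε x := funext fun g => nf_odd hset.comm D hε x g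
    rw [h1, dot_neg]
  have hz : dot (nf D ε x) h = 0 → dot (nf D ε z) h = 0 := by
    intro h0
    obtain ⟨g', hg'⟩ := hset.trans x z
    rcases hA g' x with ⟨-, h2⟩ | ⟨-, h2⟩
    · rw [← hg', h2, h0]
    · rw [← hg', h2, h0, neg_zero]
  have hxy : x ≠ y := by
    rintro rfl
    exact hy hx
  have hxcy : c • x ≠ y := by
    rintro rfl
    apply hy
    rw [← mul_smul, ← hset.comm, mul_smul, hx]
  have hgy : g • y = c • y := by
    have h1 : ({x, c • x, y, c • y} : Finset X).card = 4 := by
      rw [Finset.card_insert_of_notMem, Finset.card_insert_of_notMem,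
        Finset.card_insert_of_notMem, Finset.card_singleton]
      · rw [Finset.mem_singleton]; exact (hset.ne y).symm
      · simp only [Finset.mem_insert, Finset.mem_singleton, not_or]
        exact ⟨hxcy, fun h => hxy (smul_left_cancel c h)⟩
      · simp only [Finset.mem_insert, Finset.mem_singleton, not_or]
        refine ⟨(hset.ne x).symm, hxy, ?_⟩
        intro h
        apply hxcy
        rw [h, hcc]
    have h2 : ({x, c • x, y, c • y} : Finset X) = Finset.univ :=
      Finset.eq_univ_of_card _ (by rw [h1, hcard])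
    have h3 : g • y ∈ ({x, c • x, y, c • y} : Finset X) := by rw [h2]; exact Finset.mem_univ _
    simp only [Finset.mem_insert, Finset.mem_singleton] at h3
    rcases h3 with h3 | h3 | h3 | h3
    · exfalso
      rw [← hx] at h3
      exact hxy (smul_left_cancel g h3).symm
    · exfalso
      rw [← hx, ← mul_smul, hset.comm, mul_smul] at h3
      exact hxcy (smul_left_cancel g h3).symm
    · exact absurd h3 hy
    · exact h3
  apply hz
  by_contra h0
  rcases hA g x with ⟨h1, -⟩ | ⟨-, h2⟩
  · rcases hA g y with ⟨-, h3⟩ | ⟨h3, -⟩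
    · rw [hgy, hAc] at h3
      have h4 : dot (nf D ε y) h = 0 := by omega
      obtain ⟨g', hg'⟩ := hset.trans y x
      rcases hA g' y with ⟨-, h5⟩ | ⟨-, h5⟩
      · rw [hg'] at h5
        omega
      · rw [hg'] at h5
        omega
    · have h4 := h3 1
      rw [h1] at h4
      have h5 : 0 < Nat.card D := Nat.card_pos
      rcases hh.val with h6 | h6 <;> omega
  · rw [hx] at h2
    omega

end Pool.Agent.TH117.F5
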