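import Pool.Agent.TH117.F5.Small

/-!
# Number theory: Galois fields, supersingular factors, relations between Frobenius eigenvalues
-/

set_option autoImplicit false
set_option linter.unusedSectionVars false
set_option linter.unusedVariables false

namespace Pool.Agent.TH117.F5

open NumberField Pool.Agent.H204R3.CM Pool.Agent.W547.KB Pool.Agent.W547.LD Module
  Pool.Agent.W495.TA Pool.Agent.W495.TB Pool.Agent.W495.TC
open scoped TensorProduct

noncomputable section

variable {p : ℕ} [Fact p.Prime] {ν : PadicAlgCl p ≃+* ℂ}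
  {L : Type} [Field L] [NumberField L] [IsCMField L] [IsGalois ℚ L] (j : L →+* ℂ)

theorem isGalois_of_stable {F E L : Type} [Field F] [CharZero F] [Field E] [Field L] [Algebra F E]
    [Algebra F L] [IsGalois F L] [FiniteDimensional F L] (φ : E →ₐ[F] L)
    (h : ∀ τ σ : L ≃ₐ[F] L, (∀ b, τ (φ b) = φ b) → ∀ b, τ (σ (φ b)) = σ (φ b)) : IsGalois F E := by
  let K : IntermediateField F L := φ.fieldRange
  have hn : Normal F K := by
    rw [IntermediateField.normal_iff_forall_map_le']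
    rintro σ _ ⟨_, ⟨a, rfl⟩, rfl⟩
    rw [← IsGalois.fixedField_fixingSubgroup K, IntermediateField.mem_fixedField_iff]
    intro τ hτ
    exact h τ σ (fun b => (IntermediateField.mem_fixingSubgroup_iff K τ).1 hτ _ ⟨b, rfl⟩) a
  have hG' : IsGalois F K := ⟨⟩
  exact IsGalois.of_algEquiv (F := F) (E := K) (AlgEquiv.ofInjectiveField φ).symm

theorem swap_pow (x : ℝ) (n : ℕ) (m : ℤ) : (x ^ n) ^ m = (x ^ m) ^ n := by
  rw [← zpow_natCast, ← zpow_natCast, ← zpow_mul, ← zpow_mul, mul_comm]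

/-- If the field is not Galois over `ℚ` then some automorphism fixes one embedding, but not all of
them. -/
theorem exists_nonreg (A : CMPair) (hA : BigA A j) (hG : ¬ IsGalois ℚ A.E) :
    ∃ (g : L ≃ₐ[ℚ] L) (x y : A.E →+* L), g • x = x ∧ g • y ≠ y := by
  by_contra hcon
  push Not at hcon
  apply hG
  obtain ⟨ψ⟩ : Nonempty (A.E →+* ℂ) := inferInstance
  obtain ⟨φ, -⟩ := hA ψ
  refine isGalois_of_stable (RingHom.equivRatAlgHom A.E L φ) fun τ σ h b => ?_
  have h2 := hcon τ φ (σ • φ) (RingHom.ext h)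
  exact RingHom.congr_fun h2 b

variable {j}

theorem card_pos' : (0 : ℤ) < Nat.card (Dec p ν j) := by
  exact_mod_cast (Nat.card_pos : 0 < Nat.card (Dec p ν j))

/-- A factor with zero functions is supersingular. -/
theorem supersingular_of_zero {Y : RedAV p ν} (hYj : Big Y.X j) (l : Y.X.I)
    (φ : (Y.X.factor l).E →+* L) (h0 : nn p ν j (Y.X.factor l) φ = 0) : IsSupersingular Y l := by
  have hval := Pool.Agent.W366.TA.val
  have hD : (0 : ℤ) < Nat.card (Dec p ν j) := card_pos'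
  obtain ⟨n, hn, h⟩ := Pool.Agent.W64.TA.ru p ν L j (φ (Y.π l)) (p : L) Y.a 2 Y.pos (by norm_num)
    ((Y.frob l).integral.map φ.toIntAlgHom) (isIntegral_natCast p) (fun ψ => (Y.frob l).weil (ψ.comp φ))
    (fun ψ => by rw [map_natCast, Complex.norm_natCast]) (fun σ => by
      have h1 := val_conj hval (Y.X.factor l) (hYj l) Y.a (Y.π l) (Y.frob l) φ σ
      rw [tf_hs] at h1
      have h2 : nf (Dec p ν j) (eps j (Y.X.factor l)) φ = 0 := h0
      rw [h2, Pi.zero_apply, add_zero] at h1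
      have h3 : (‖ν.symm (j (σ (φ (Y.π l))))‖ ^ 2) ^ (Nat.card (Dec p ν j) : ℤ) =
          (‖(p : PadicAlgCl p)‖ ^ Y.a) ^ (Nat.card (Dec p ν j) : ℤ) := by
        rw [← zpow_natCast, ← zpow_natCast, ← zpow_mul, ← zpow_mul]
        exact_mod_cast h1
      rw [map_natCast, map_natCast, map_natCast]
      rw [zpow_natCast, zpow_natCast] at h3
      exact (pow_left_inj₀ (by positivity) (by positivity) (Nat.card_pos.ne')).1 h3)
  refine ⟨n, hn, φ.injective ?_⟩
  rw [map_pow, map_pow, map_pow, map_natCast, h, pow_mul]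

/-- From a relation between the functions to a relation between the Frobenius eigenvalues. -/
theorem eigen_rel {Y : RedAV p ν} (hYj : Big Y.X j) (i k : Y.X.I)
    (x y : (Y.X.factor k).E →+* L) (z : (Y.X.factor i).E →+* L)
    (h : ∀ g, nn p ν j (Y.X.factor k) x g + nn p ν j (Y.X.factor k) y g =
      nn p ν j (Y.X.factor i) z g) :
    ∃ s : ℕ, 0 < s ∧ (x (Y.π k) * y (Y.π k)) ^ (2 * s) = ((z (Y.π i)) ^ 2 * (p : L) ^ Y.a) ^ s := by
  have hval := Pool.Agent.W366.TA.val
  have hD : (0 : ℤ) < Nat.card (Dec p ν j) := card_pos'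
  obtain ⟨n, hn, h1⟩ := Pool.Agent.W64.TA.ru p ν L j (x (Y.π k) * y (Y.π k))
    ((z (Y.π i)) ^ 2 * (p : L) ^ Y.a) (2 * Y.a) (4 * Y.a)
    (Nat.mul_pos (by norm_num) Y.pos) (Nat.mul_pos (by norm_num) Y.pos)
    (((Y.frob k).integral.map x.toIntAlgHom).mul ((Y.frob k).integral.map y.toIntAlgHom))
    ((((Y.frob i).integral.map z.toIntAlgHom).pow 2).mul ((isIntegral_natCast p).pow _))
    (fun ψ => by
      have e1 := (Y.frob k).weil (ψ.comp x)
      have e2 := (Y.frob k).weil (ψ.comp y)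
      change ‖ψ (x (Y.π k))‖ ^ 2 = _ at e1
      change ‖ψ (y (Y.π k))‖ ^ 2 = _ at e2
      rw [map_mul, norm_mul, mul_pow, e1, e2, ← pow_add, two_mul])
    (fun ψ => by
      have e1 := (Y.frob i).weil (ψ.comp z)
      change ‖ψ (z (Y.π i))‖ ^ 2 = _ at e1
      rw [map_mul, map_pow, map_pow, map_natCast, norm_mul, norm_pow, norm_pow,
        Complex.norm_natCast, e1, ← pow_add, ← pow_mul]
      congr 1
      ring)
    (fun σ => by
      have e1 := val_conj hval (Y.X.factor k) (hYj k) Y.a (Y.π k) (Y.frob k) x σ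
      have e2 := val_conj hval (Y.X.factor k) (hYj k) Y.a (Y.π k) (Y.frob k) y σ
      have e3 := val_conj hval (Y.X.factor i) (hYj i) Y.a (Y.π i) (Y.frob i) z σ
      rw [tf_hs] at e1 e2 e3
      have h' := h σ
      change nf (Dec p ν j) (eps j (Y.X.factor k)) x σ +
        nf (Dec p ν j) (eps j (Y.X.factor k)) y σ =
        nf (Dec p ν j) (eps j (Y.X.factor i)) z σ at h'
      set D : ℤ := (Nat.card (Dec p ν j) : ℤ) with hDdef
      set P : ℝ := ‖(p : PadicAlgCl p)‖ with hP
      have hP0 : P ≠ 0 := norm_p_pos.ne'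
      have hnp : ‖ν.symm (j (σ ((p : L) ^ Y.a)))‖ = P ^ Y.a := by
        rw [map_pow, map_pow, map_pow, map_natCast, map_natCast, map_natCast, norm_pow]
      have hα : ‖ν.symm (j (σ (x (Y.π k) * y (Y.π k))))‖ ^ (2 * D) =
          P ^ ((Y.a : ℤ) * (2 * D + nf (Dec p ν j) (eps j (Y.X.factor i)) z σ)) := by
        rw [map_mul, map_mul, map_mul, norm_mul, mul_zpow, e1, e2, ← zpow_add₀ hP0, ← h']
        congr 1
        ring
      have hβ : ‖ν.symm (j (σ ((z (Y.π i)) ^ 2 * (p : L) ^ Y.a)))‖ ^ (2 * D) =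
          P ^ ((Y.a : ℤ) * (4 * D + 2 * nf (Dec p ν j) (eps j (Y.X.factor i)) z σ)) := by
        rw [map_mul, map_mul, map_mul, norm_mul, hnp, mul_zpow, map_pow, map_pow, map_pow, norm_pow,
          ← zpow_natCast, ← zpow_mul, mul_comm ((2 : ℕ) : ℤ), zpow_mul, e3, ← zpow_mul,
          ← zpow_natCast, ← zpow_mul, ← zpow_add₀ hP0]
        congr 1
        push_cast
        ring
      have h3 : (‖ν.symm (j (σ (x (Y.π k) * y (Y.π k))))‖ ^ (4 * Y.a)) ^ (2 * D) =
          (‖ν.symm (j (σ ((z (Y.π i)) ^ 2 * (p : L) ^ Y.a)))‖ ^ (2 * Y.a)) ^ (2 * D) := by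
        rw [swap_pow, swap_pow, hα, hβ, ← zpow_natCast, ← zpow_natCast, ← zpow_mul, ← zpow_mul]
        congr 1
        push_cast
        ring
      have h4 : (2 * D) = ((2 * Nat.card (Dec p ν j) : ℕ) : ℤ) := by
        rw [hDdef]
        push_cast
        ring
      rw [h4, zpow_natCast, zpow_natCast] at h3
      exact (pow_left_inj₀ (by positivity) (by positivity)
        (Nat.mul_pos (by norm_num) Nat.card_pos).ne').1 h3)
  refine ⟨2 * Y.a * n, Nat.mul_pos (Nat.mul_pos (by norm_num) Y.pos) hn, ?_⟩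
  rw [← h1]
  congr 1
  ring

end

end Pool.Agent.TH117.F5
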