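import Pool.Agent.W495.TA.Stms

/-!
# Combinatorics: relations between three functions in an orbit of eight elements
-/

set_option autoImplicit false
set_option linter.unusedSectionVars false
set_option linter.unusedVariables false

namespace Pool.Agent.TH117.F5

open Pool.Agent.W495.TA

section dot

variable {G : Type} [Group G] [Fintype G]

/-- The inner product of functions on a finite group. -/
def dot (u v : G → ℤ) : ℤ := ∑ g, u g * v g

theorem dot_comm (u v : G → ℤ) : dot u v = dot v u :=
  Finset.sum_congr rfl fun g _ => mul_comm _ _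

theorem dot_add (u u' v : G → ℤ) : dot (u + u') v = dot u v + dot u' v := by
  unfold dot
  rw [← Finset.sum_add_distrib]
  exact Finset.sum_congr rfl fun g _ => by rw [Pi.add_apply, add_mul]

theorem dot_neg (u v : G → ℤ) : dot (-u) v = -dot u v := by
  unfold dot
  rw [← Finset.sum_neg_distrib]
  exact Finset.sum_congr rfl fun g _ => by rw [Pi.neg_apply, neg_mul]

theorem dot_smul (a : ℤ) (u v : G → ℤ) : dot (a • u) v = a * dot u v := by
  unfold dot
  rw [Finset.mul_sum]
  exact Finset.sum_congr rfl fun g _ => by rw [Pi.smul_apply, smul_eq_mul, mul_assoc]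

theorem dot_zero (v : G → ℤ) : dot 0 v = 0 := by
  unfold dot
  exact Finset.sum_eq_zero fun g _ => by rw [Pi.zero_apply, zero_mul]

theorem dot_self_nonneg (u : G → ℤ) : 0 ≤ dot u u :=
  Finset.sum_nonneg fun g _ => mul_self_nonneg _

theorem eq_zero_of_dot_self {u : G → ℤ} (h : dot u u = 0) : u = 0 := by
  unfold dot at h
  rw [Finset.sum_eq_zero_iff_of_nonneg (fun g _ => mul_self_nonneg _)] at h
  funext g
  exact mul_self_eq_zero.1 (h g (Finset.mem_univ g))

theorem dot_tr (u v : G → ℤ) (g : G) : dot (fun h => u (h * g)) (fun h => v (h * g)) = dot u v := by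
  unfold dot
  exact Equiv.sum_comp (Equiv.mulRight g) (fun h => u h * v h)

end dot

section hexa

variable {G X : Type} [Group G] [Fintype G] [Fintype X] [MulAction G X]

/-- The last step: a value at the fourth pair cannot agree with another one up to sign. -/
theorem step (c : G) (hset : Setting G X c) (b : X → X → ℤ) (hb : ∀ (g : G) (x y : X), b (g • x) (g • y) = b x y)
    (hsym : ∀ x y, b x y = b y x) (hc : ∀ x y, b (c • x) y = -b x y) (N q : ℤ) (hN : 0 < N)
    (hq : 2 * q = -N) (hbN : ∀ x, b x x = N) (u v w z z' : X) (huniv : ∀ y : X, y = u ∨ y = c • u ∨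
      y = v ∨ y = c • v ∨ y = w ∨ y = c • w ∨ y = z ∨ y = c • z)
    (hcs : ∀ x y, b x y = N → ∀ t, b x t = b y t)
    (huv : b u v = q) (huw : b u w = q) (hvw : b v w = q) (hzu : b z' u = N)
    (hz' : z' = z ∨ z' = c • z) (hne : z' ≠ u) : False := by
  obtain ⟨g, hg⟩ := hset.trans u v
  have h1 : b (g • z') v = N := by
    rw [← hg, hb]
    exact hzu
  have h2 : g • z' ≠ v := by
    rw [← hg]
    intro h
    exact hne (smul_left_cancel g h)
  have h3 : b z' v = q := by
    rw [hcs z' u hzu v, huv]
  have h4 : b z v = q ∨ b z v = -q := by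
    rcases hz' with rfl | rfl
    · exact Or.inl h3
    · rw [hc] at h3
      right
      linarith
  rcases huniv (g • z') with h | h | h | h | h | h | h | h
  · rw [h, huv] at h1; linarith
  · rw [h, hc, huv] at h1; linarith
  · exact h2 h
  · rw [h, hc, hbN] at h1; linarith
  · rw [h, hsym, hvw] at h1; linarith
  · rw [h, hc, hsym, hvw] at h1; linarith
  · rw [h] at h1; rcases h4 with h4 | h4 <;> linarith
  · rw [h, hc] at h1; rcases h4 with h4 | h4 <;> linarith

/-- In an orbit of eight elements, three functions from different pairs with sum zero are zero. -/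
theorem hexa (c : G) (hset : Setting G X c) (hcard : Fintype.card X = 8) (φ : X → G → ℤ)
    (hsm : ∀ (g h : G) (x : X), φ (g • x) h = φ x (h * g))
    (hodd : ∀ x g, φ (c • x) g = -φ x g) (x1 x2 x3 : X)
    (h12 : x2 ≠ x1) (h12' : x2 ≠ c • x1) (h13 : x3 ≠ x1) (h13' : x3 ≠ c • x1) (h23 : x3 ≠ x2)
    (h23' : x3 ≠ c • x2) (hsum : ∀ g, φ x1 g + φ x2 g + φ x3 g = 0) (x : X) : φ x = 0 := by
  classical
  have hcc : ∀ x : X, c • c • x = x := fun x => by rw [← mul_smul, hset.sq, one_smul]
  have hgc : ∀ (g : G) (x : X), g • c • x = c • g • x := fun g x => by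
    rw [← mul_smul, ← mul_smul, hset.comm g]
  let b : X → X → ℤ := fun x y => dot (φ x) (φ y)
  have hφg : ∀ (g : G) (x : X), φ (g • x) = fun h => φ x (h * g) := fun g x =>
    funext fun h => hsm g h x
  have hb : ∀ (g : G) x y, b (g • x) (g • y) = b x y := by
    intro g x y
    change dot (φ (g • x)) (φ (g • y)) = dot (φ x) (φ y)
    rw [hφg, hφg]
    exact dot_tr _ _ g
  have hsym : ∀ x y, b x y = b y x := fun x y => dot_comm _ _
  have hφc : ∀ x, φ (c • x) = -φ x := fun x => funext fun g => hodd x g
  have hbc : ∀ x y, b (c • x) y = -b x y := by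
    intro x y
    change dot (φ (c • x)) (φ y) = -dot (φ x) (φ y)
    rw [hφc, dot_neg]
  have hbc' : ∀ x y, b x (c • y) = -b x y := fun x y => by rw [hsym, hbc, hsym]
  set N := b x1 x1 with hNdef
  have hbN : ∀ x, b x x = N := by
    intro x
    obtain ⟨g, hg⟩ := hset.trans x1 x
    rw [← hg, hb]
  rcases (dot_self_nonneg (φ x1)).eq_or_lt with h0 | hNpos
  · exact eq_zero_of_dot_self ((hbN x).trans h0.symm)
  exfalso
  have hN : 0 < N := hNpos
  have hrel : ∀ (g : G) (y : X), b (g • x1) y + b (g • x2) y + b (g • x3) y = 0 := by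
    intro g y
    change dot (φ (g • x1)) (φ y) + dot (φ (g • x2)) (φ y) + dot (φ (g • x3)) (φ y) = 0
    rw [← dot_add, ← dot_add]
    have : φ (g • x1) + φ (g • x2) + φ (g • x3) = 0 := by
      funext h
      simp only [Pi.add_apply, Pi.zero_apply]
      rw [hsm, hsm, hsm]
      exact hsum (h * g)
    rw [this, dot_zero]
  have hrel1 : ∀ y : X, b x1 y + b x2 y + b x3 y = 0 := by
    intro y
    have := hrel 1 y
    rwa [one_smul, one_smul, one_smul] at this
  have hcs : ∀ x y, b x y = N → ∀ t, b x t = b y t := by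
    intro x y hxy t
    have h1 : dot (φ x + -φ y) (φ x + -φ y) = 0 := by
      rw [dot_add, dot_comm (φ x), dot_comm (-φ y), dot_add, dot_add, dot_neg, dot_neg,
        dot_comm (φ x) (-φ y), dot_neg]
      have e1 : dot (φ x) (φ x) = N := hbN x
      have e2 : dot (φ y) (φ y) = N := hbN y
      have e3 : dot (φ x) (φ y) = N := hxy
      have e4 : dot (φ y) (φ x) = N := by rw [dot_comm]; exact hxy
      have e5 : dot (φ y) (-φ y) = -N := by rw [dot_comm, dot_neg, e2]
      rw [e1, e4, e5]
      ring
    have h2 : φ x = φ y := by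
      have := eq_zero_of_dot_self h1
      rwa [← sub_eq_add_neg, sub_eq_zero] at this
    change dot (φ x) (φ t) = dot (φ y) (φ t)
    rw [h2]
  -- the inner products
  obtain ⟨q, hq, q12, q13, q23⟩ : ∃ q, 2 * q = -N ∧ b x1 x2 = q ∧ b x1 x3 = q ∧ b x2 x3 = q := by
    have e1 := hrel1 x1
    have e2 := hrel1 x2
    have e3 := hrel1 x3
    rw [hbN x1, hsym x2 x1, hsym x3 x1] at e1
    rw [hbN x2, hsym x3 x2] at e2
    rw [hbN x3] at e3
    refine ⟨b x1 x2, ?_, rfl, ?_, ?_⟩ <;> linarith
  -- the fourth pair
  set S : Finset X := {x1, c • x1, x2, c • x2, x3, c • x3} with hS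
  have hScard : S.card ≤ 6 := Finset.card_le_six
  obtain ⟨x4, hx4⟩ : ∃ x4, x4 ∉ S := by
    by_contra hcon
    push Not at hcon
    have : S = Finset.univ := Finset.eq_univ_iff_forall.2 hcon
    rw [this, Finset.card_univ] at hScard
    omega
  have hcx4 : c • x4 ∉ S := by
    intro h
    apply hx4
    simp only [hS, Finset.mem_insert, Finset.mem_singleton] at h ⊢
    rcases h with h | h | h | h | h | h
    · right; left; rw [← h, hcc]
    · left; exact smul_left_cancel c h
    · right; right; right; left; rw [← h, hcc]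
    · right; right; left; exact smul_left_cancel c h
    · right; right; right; right; right; rw [← h, hcc]
    · right; right; right; right; left; exact smul_left_cancel c h
  have hS6 : S.card = 6 := by
    rw [hS, Finset.card_insert_of_notMem, Finset.card_insert_of_notMem,
      Finset.card_insert_of_notMem, Finset.card_insert_of_notMem, Finset.card_insert_of_notMem,
      Finset.card_singleton]
    · rw [Finset.mem_singleton]; exact (hset.ne x3).symm
    · simp only [Finset.mem_insert, Finset.mem_singleton, not_or]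
      refine ⟨fun h => h23' h.symm, fun h => h23 (smul_left_cancel c h).symm⟩
    · simp only [Finset.mem_insert, Finset.mem_singleton, not_or]
      refine ⟨(hset.ne x2).symm, h23.symm, ?_⟩
      intro h
      apply h23'
      rw [h, hcc]
    · simp only [Finset.mem_insert, Finset.mem_singleton, not_or]
      refine ⟨h12'.symm, fun h => h12 (smul_left_cancel c h).symm, h13'.symm,
        fun h => h13 (smul_left_cancel c h).symm⟩
    · simp only [Finset.mem_insert, Finset.mem_singleton, not_or]
      refine ⟨(hset.ne x1).symm, h12.symm, ?_, h13.symm, ?_⟩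
      · intro h
        apply h12'
        rw [h, hcc]
      · intro h
        apply h13'
        rw [h, hcc]
  have huniv : ∀ y : X, y ∈ S ∨ y = x4 ∨ y = c • x4 := by
    have h1 : (insert (c • x4) (insert x4 S)).card = 8 := by
      rw [Finset.card_insert_of_notMem, Finset.card_insert_of_notMem hx4, hS6]
      rw [Finset.mem_insert, not_or]
      exact ⟨hset.ne x4, hcx4⟩
    have h2 : insert (c • x4) (insert x4 S) = Finset.univ :=
      Finset.eq_univ_of_card _ (by rw [h1, hcard])
    intro y
    have h3 : y ∈ insert (c • x4) (insert x4 S) := by rw [h2]; exact Finset.mem_univ y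
    rw [Finset.mem_insert, Finset.mem_insert] at h3
    rcases h3 with h3 | h3 | h3
    · exact Or.inr (Or.inr h3)
    · exact Or.inr (Or.inl h3)
    · exact Or.inl h3
  obtain ⟨g, hg⟩ := hset.trans x1 x4
  have hg' : ∀ y, y ≠ x1 → y ≠ c • x1 → g • y ∈ S := by
    intro y h1 h2
    rcases huniv (g • y) with h | h | h
    · exact h
    · rw [← hg] at h
      exact absurd (smul_left_cancel g h) h1
    · rw [← hg, ← hgc] at h
      exact absurd (smul_left_cancel g h) h2
  have ha := hg' x2 h12 h12'
  have hb' := hg' x3 h13 h13'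
  have hrg := hrel g
  rw [hg] at hrg
  have hab : 2 * b (g • x2) (g • x3) = -N := by
    rw [hb, q23, hq]
  have q21 : b x2 x1 = q := by rw [hsym]; exact q12
  have q31 : b x3 x1 = q := by rw [hsym]; exact q13
  have q32 : b x3 x2 = q := by rw [hsym]; exact q23
  have key : (b x4 x1 = N ∨ b (c • x4) x1 = N) ∨ (b x4 x2 = N ∨ b (c • x4) x2 = N) ∨
      (b x4 x3 = N ∨ b (c • x4) x3 = N) := by
    have r1 := hrg x1
    have r2 := hrg x2
    have r3 := hrg x3
    simp only [hS, Finset.mem_insert, Finset.mem_singleton] at ha hb'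
    have n1 := hbN x1
    have n2 := hbN x2
    have n3 := hbN x3
    rcases ha with h | h | h | h | h | h <;> rcases hb' with h' | h' | h' | h' | h' | h' <;>
      rw [h, h'] at hab r1 r2 r3 <;>
      simp only [hbc, hbc', q12, q13, q23, q21, q31, q32, n1, n2, n3] at hab r1 r2 r3 ⊢ <;>
      omega
  have huniv1 : ∀ y : X, y = x1 ∨ y = c • x1 ∨ y = x2 ∨ y = c • x2 ∨ y = x3 ∨ y = c • x3 ∨
      y = x4 ∨ y = c • x4 := by
    intro y
    have := huniv y
    simp only [hS, Finset.mem_insert, Finset.mem_singleton] at this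
    rcases this with (h | h | h | h | h | h) | h | h <;> simp only [h, true_or, or_true]
  have hx4' : x4 ≠ x1 ∧ x4 ≠ x2 ∧ x4 ≠ x3 := by
    simp only [hS, Finset.mem_insert, Finset.mem_singleton, not_or] at hx4
    exact ⟨hx4.1, hx4.2.2.1, hx4.2.2.2.2.1⟩
  have hcx4' : c • x4 ≠ x1 ∧ c • x4 ≠ x2 ∧ c • x4 ≠ x3 := by
    simp only [hS, Finset.mem_insert, Finset.mem_singleton, not_or] at hcx4
    exact ⟨hcx4.1, hcx4.2.2.1, hcx4.2.2.2.2.1⟩
  rcases key with (h | h) | (h | h) | (h | h)
  · exact step c hset b hb hsym hbc N q hN hq hbN x1 x2 x3 x4 x4 huniv1 hcs q12 q13 q23 h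
      (Or.inl rfl) hx4'.1
  · exact step c hset b hb hsym hbc N q hN hq hbN x1 x2 x3 x4 (c • x4) huniv1 hcs q12 q13 q23 h
      (Or.inr rfl) hcx4'.1
  · exact step c hset b hb hsym hbc N q hN hq hbN x2 x1 x3 x4 x4
      (fun y => by
        rcases huniv1 y with h | h | h | h | h | h | h | h <;> simp only [h, true_or, or_true]) hcs q21 q23 q13 h (Or.inl rfl) hx4'.2.1
  · exact step c hset b hb hsym hbc N q hN hq hbN x2 x1 x3 x4 (c • x4)
      (fun y => by
        rcases huniv1 y with h | h | h | h | h | h | h | h <;> simp only [h, true_or, or_true]) hcs q21 q23 q13 h (Or.inr rfl) hcx4'.2.1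
  · exact step c hset b hb hsym hbc N q hN hq hbN x3 x1 x2 x4 x4
      (fun y => by
        rcases huniv1 y with h | h | h | h | h | h | h | h <;> simp only [h, true_or, or_true]) hcs q31 q32 q12 h (Or.inl rfl) hx4'.2.2
  · exact step c hset b hb hsym hbc N q hN hq hbN x3 x1 x2 x4 (c • x4)
      (fun y => by
        rcases huniv1 y with h | h | h | h | h | h | h | h <;> simp only [h, true_or, or_true]) hcs q31 q32 q12 h (Or.inr rfl) hcx4'.2.2

end hexa

end Pool.Agent.TH117.F5
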