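import Pool.Agent.W515.TB.Comb4
import Pool.Agent.TH117.F5.EightTwo

/-!
# Combinatorics: reduction of balanced families to relations with four terms
-/

set_option autoImplicit false
set_option linter.unusedSectionVars false
set_option linter.unusedVariables false

namespace Pool.Agent.TH117.F5

open Pool.Agent.W495.TA Pool.Agent.W495.TB

section

variable {G W : Type}

/-- Removing opposite pairs. -/
theorem reduce [Group G] [Fintype G] [Fintype W] [MulAction G W] (t : W → G → ℤ)
    (Q : (κ : Type) → (κ → G → ℤ) → Prop)
    (hQ : Closed G Q)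
    (H : ∀ (κ : Type) [Fintype κ] (I : κ → W), Function.Injective I →
      (∀ g, ∑ k, t (I k) g = 0) → Even (Fintype.card κ) →
      (∀ k k', k ≠ k' → t (I k) ≠ -t (I k')) → Q κ (fun k => t (I k)))
    (κ : Type) [Fintype κ] (I : κ → W) (hI : Function.Injective I)
    (hsum : ∀ g, ∑ k, t (I k) g = 0) (heven : Even (Fintype.card κ)) : Q κ (fun k => t (I k)) := by
  classical
  suffices main : ∀ (n : ℕ) (κ : Type) [Fintype κ] (I : κ → W), Fintype.card κ = n →
      Function.Injective I → (∀ g, ∑ k, t (I k) g = 0) → Even (Fintype.card κ) →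
      Q κ (fun k => t (I k)) from main _ κ I rfl hI hsum heven
  intro n
  induction n using Nat.strong_induction_on with
  | _ n ih =>
  intro κ _ I hn hI hsum heven
  by_cases hA : ∃ k k' : κ, k ≠ k' ∧ t (I k) = -t (I k')
  swap
  · push Not at hA
    exact H κ I hI hsum heven hA
  obtain ⟨k, k', hk, ht⟩ := hA
  have : Fintype {x : κ // x ≠ k ∧ x ≠ k'} := Fintype.ofFinite _
  have hset : Finset.univ.filter (fun x : κ => x ≠ k ∧ x ≠ k') =
      (Finset.univ.erase k).erase k' := by
    ext x
    simp only [Finset.mem_filter, Finset.mem_univ, true_and, Finset.mem_erase, and_true]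
    tauto
  have hk' : k' ∈ Finset.univ.erase k := Finset.mem_erase.2 ⟨hk.symm, Finset.mem_univ _⟩
  have hcard : Fintype.card {x : κ // x ≠ k ∧ x ≠ k'} = Fintype.card κ - 1 - 1 := by
    rw [Fintype.card_subtype, hset, Finset.card_erase_of_mem hk',
      Finset.card_erase_of_mem (Finset.mem_univ _), Finset.card_univ]
  have h2 : 2 ≤ Fintype.card κ := by
    have h3 := Finset.card_le_univ ({k, k'} : Finset κ)
    rwa [Finset.card_pair hk] at h3
  refine Pool.Agent.W515.TB.split_pair t Q hQ I k k' hk ht ?_
  refine ih _ ?_ _ _ rfl ?_ ?_ ?_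
  · rw [hcard]
    omega
  · intro x y hxy
    exact Subtype.ext (hI hxy)
  · intro g
    have h3 : ∑ x : {x : κ // x ≠ k ∧ x ≠ k'}, t (I x.1) g =
        ∑ x ∈ Finset.univ.filter (fun x : κ => x ≠ k ∧ x ≠ k'), t (I x) g :=
      (Finset.sum_subtype _ (fun x => by simp) (fun x => t (I x) g)).symm
    rw [h3, hset]
    have h4 := Finset.add_sum_erase Finset.univ (fun x => t (I x) g) (Finset.mem_univ k)
    have h5 := Finset.add_sum_erase (Finset.univ.erase k) (fun x => t (I x) g) hk'
    have h6 := hsum g
    have h7 := congrFun ht g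
    rw [Pi.neg_apply] at h7
    linarith
  · rw [hcard]
    obtain ⟨a, ha⟩ := heven
    exact ⟨a - 1, by omega⟩

/-- Reduction to relations with four terms without opposite terms. -/
theorem reduce_four [Group G] [Fintype G] [Fintype W] [MulAction G W] (c : G)
    (hcc : c * c = 1) (hcW : ∀ w : W, c • w ≠ w) (t : W → G → ℤ)
    (htc : ∀ w g, t (c • w) g = -t w g) (hW : Fintype.card W ≤ 10)
    (Q : (κ : Type) → (κ → G → ℤ) → Prop) (hQ : Closed G Q)
    (H : ∀ w : Fin 4 → W, Function.Injective w → (∀ g, ∑ a, t (w a) g = 0) →
      (∀ a b, a ≠ b → t (w a) ≠ -t (w b)) → Q (Fin 4) (fun a => t (w a)))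
    (κ : Type) [Fintype κ] (I : κ → W) (hI : Function.Injective I)
    (hsum : ∀ g, ∑ k, t (I k) g = 0) (heven : Even (Fintype.card κ)) : Q κ (fun k => t (I k)) := by
  classical
  refine reduce t Q hQ ?_ κ I hI hsum heven
  intro κ _ I hI hsum heven hno
  have hinjc : Function.Injective fun w : W => c • w := MulAction.injective c
  -- the number of elements
  have h1 : Fintype.card (κ ⊕ κ) ≤ Fintype.card W := by
    refine Fintype.card_le_of_injective (Sum.elim I fun k => c • I k) ?_
    rintro (k | k) (k' | k') hkk
    · exact congrArg Sum.inl (hI hkk)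
    · exfalso
      change I k = c • I k' at hkk
      have h2 : t (I k) = -t (I k') := by
        rw [hkk]
        exact funext fun g => htc _ g
      by_cases hk : k = k'
      · subst hk
        exact hcW _ hkk.symm
      · exact hno k k' hk h2
    · exfalso
      change c • I k = I k' at hkk
      have h2 : t (I k') = -t (I k) := by
        rw [← hkk]
        exact funext fun g => htc _ g
      by_cases hk : k = k'
      · subst hk
        exact hcW _ hkk
      · exact hno k' k (Ne.symm hk) h2
    · exact congrArg Sum.inr (hI (hinjc hkk))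
  rw [Fintype.card_sum] at h1
  obtain ⟨a, ha⟩ := heven
  have h2 : Fintype.card κ = 0 ∨ Fintype.card κ = 2 ∨ Fintype.card κ = 4 := by omega
  rcases h2 with h2 | h2 | h2
  · have : IsEmpty κ := Fintype.card_eq_zero_iff.1 h2
    exact hQ.empty κ _
  · exfalso
    let e : Fin 2 ≃ κ := (Fintype.equivFinOfCardEq h2).symm
    refine hno (e 0) (e 1) (fun h => ?_) ?_
    · have := e.injective h
      exact absurd this (by decide)
    · funext g
      have h3 := hsum g
      rw [← Equiv.sum_comp e, Fin.sum_univ_two] at h3
      rw [Pi.neg_apply]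
      linarith
  · let e : Fin 4 ≃ κ := (Fintype.equivFinOfCardEq h2).symm
    have h3 := H (fun a => I (e a)) (fun a b hab => e.injective (hI hab))
      (fun g => by
        rw [← hsum g]
        exact Equiv.sum_comp e (fun k => t (I k) g))
      (fun a b hab => hno _ _ fun h => hab (e.injective h))
    exact hQ.reindex _ _ e _ _ (fun k => rfl) h3

end

/-- Orbits of two elements. -/
theorem char_or_zero {G X : Type} [Group G] [Fintype G] [Fintype X] [MulAction G X] (c : G)
    (hset : Setting G X c) (hcard : Fintype.card X = 2) (D : Subgroup G) (ε : X → ℤ)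
    (hε : IsSign c ε) (e : X) : nf D ε e = 0 ∨ IsChar c D (nf D ε e) := by
  classical
  have hX : ∀ x : X, x = e ∨ x = c • e := by
    intro x
    have h1 : ({e, c • e} : Finset X) = Finset.univ := by
      refine Finset.eq_univ_of_card _ ?_
      rw [Finset.card_pair (hset.ne e).symm, hcard]
    have h2 : x ∈ ({e, c • e} : Finset X) := by rw [h1]; exact Finset.mem_univ x
    simpa using h2
  have hneg : ∀ g, nf D ε (c • e) g = -nf D ε e g := fun g => nf_odd hset.comm D hε e g
  have hsm : ∀ g x, nf D ε e (x * g) = nf D ε (g • e) x := fun g x => (nf_smul D ε g x e).symm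
  have hsemi : ∀ g : G, (g • e = e ∧ ∀ x, nf D ε e (x * g) = nf D ε e x) ∨
      (g • e = c • e ∧ ∀ x, nf D ε e (x * g) = -nf D ε e x) := by
    intro g
    rcases hX (g • e) with h | h
    · exact Or.inl ⟨h, fun x => by rw [hsm, h]⟩
    · exact Or.inr ⟨h, fun x => by rw [hsm, h, hneg]⟩
  by_cases h0 : nf D ε e 1 = 0
  · left
    funext g
    rcases hsemi g with ⟨-, h⟩ | ⟨-, h⟩
    · have := h 1
      rw [one_mul, h0] at this
      exact this
    · have := h 1
      rw [one_mul, h0, neg_zero] at this
      exact this
  · right
    refine ⟨fun x => ?_, fun g => (hsemi g).imp (fun h => h.2) fun h => h.2,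
      fun d hd x => nf_left D ε e d x hd, ?_⟩
    · rw [hsm, hneg]
    · have hfix : ∀ d ∈ D, d • e = e := by
        intro d hd
        rcases hsemi d with ⟨h, -⟩ | ⟨-, h⟩
        · exact h
        · exfalso
          have h1 := h 1
          have h2 := nf_left D ε e d 1 hd
          rw [one_mul] at h1
          rw [mul_one] at h2
          omega
      have h1 : nf D ε e 1 = Nat.card D * ε e := by
        unfold nf
        have h2 : ∀ d : G, (if d ∈ D then ε (d • (1 : G) • e) else 0) =
            if d ∈ D then ε e else 0 := by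
          intro d
          by_cases hd : d ∈ D
          · rw [if_pos hd, if_pos hd, one_smul, hfix d hd]
          · rw [if_neg hd, if_neg hd]
        rw [Finset.sum_congr rfl fun d _ => h2 d, ← Finset.sum_filter, Finset.sum_const,
          nsmul_eq_mul]
        congr 2
        rw [Nat.card_eq_fintype_card, Fintype.card_subtype]
      rcases hε.sign e with h2 | h2
      · left; rw [h1, h2, mul_one]
      · right; rw [h1, h2, mul_neg, mul_one]

/-- The number of elements is even. -/
theorem even_card {G X : Type} [Group G] [Fintype X] [MulAction G X] (c : G)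
    (hcc : c * c = 1) {ε : X → ℤ} (hε : IsSign c ε) : Even (Fintype.card X) := by
  classical
  have h1 := Finset.card_filter_add_card_filter_not (s := (Finset.univ : Finset X))
    (fun x => ε x = 1)
  have h2 : Finset.univ.filter (fun x => ¬ ε x = 1) =
      (Finset.univ.filter fun x => ε x = 1).image fun x => c • x := by
    ext x
    simp only [Finset.mem_filter, Finset.mem_univ, true_and, Finset.mem_image]
    constructor
    · intro h
      refine ⟨c • x, ?_, ?_⟩
      · rw [hε.odd, (hε.sign x).resolve_left h, neg_neg]
      · rw [← mul_smul, hcc, one_smul]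
    · rintro ⟨y, hy, rfl⟩
      rw [hε.odd, hy]
      norm_num
  rw [h2, Finset.card_image_of_injective _ (MulAction.injective c), Finset.card_univ] at h1
  exact ⟨_, h1.symm⟩

/-- An element whose cube is trivial acts trivially on two pairs. -/
theorem cube_four {G X : Type} [Group G] [Fintype X] [MulAction G X] (c : G)
    (hset : Setting G X c) (hcard : Fintype.card X = 4) (g : G) (hg : ∀ x : X, (g ^ 3) • x = x)
    (x : X) : g • x = x := by
  classical
  have hcc : ∀ x : X, c • c • x = x := fun x => by rw [← mul_smul, hset.sq, one_smul]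
  have hgc : ∀ (x : X), g • c • x = c • g • x := fun x => by
    rw [← mul_smul, ← mul_smul, hset.comm g]
  have h3 : g • g • g • x = x := by
    have := hg x
    rwa [pow_succ, pow_two, mul_smul, mul_smul] at this
  by_contra h1
  by_cases h2 : g • x = c • x
  · rw [h2, hgc, h2, hcc, h2] at h3
    exact hset.ne x h3
  set y := g • x with hy
  have hcy : c • y ≠ x := by
    intro h
    apply h2
    rw [← h, hcc]
  have hcard4 : ({x, c • x, y, c • y} : Finset X).card = 4 := by
    rw [Finset.card_insert_of_notMem, Finset.card_insert_of_notMem,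
      Finset.card_insert_of_notMem, Finset.card_singleton]
    · rw [Finset.mem_singleton]; exact (hset.ne y).symm
    · simp only [Finset.mem_insert, Finset.mem_singleton, not_or]
      exact ⟨fun h => h2 h.symm, fun h => h1 (smul_left_cancel c h).symm⟩
    · simp only [Finset.mem_insert, Finset.mem_singleton, not_or]
      exact ⟨(hset.ne x).symm, fun h => h1 h.symm, fun h => hcy h.symm⟩
  have huniv : ({x, c • x, y, c • y} : Finset X) = Finset.univ :=
    Finset.eq_univ_of_card _ (by rw [hcard4, hcard])
  have h4 : g • y ∈ ({x, c • x, y, c • y} : Finset X) := by rw [huniv]; exact Finset.mem_univ _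
  simp only [Finset.mem_insert, Finset.mem_singleton] at h4
  rcases h4 with h4 | h4 | h4 | h4
  · rw [h4] at h3
    exact h1 h3
  · rw [h4, hgc] at h3
    exact hcy h3
  · have : g • y = g • x := h4
    exact h1 (smul_left_cancel g this)
  · have : g • y = g • c • x := by rw [hgc]; exact h4
    exact h2 (smul_left_cancel g this)

/-- An orbit with six elements and an orbit with four elements have different kernels. -/
theorem not_four_six {G X Z : Type} [Group G] [Finite G] [Fintype X] [MulAction G X] [Fintype Z]
    [MulAction G Z] (c : G) (hset : Setting G X c) (hcard : Fintype.card X = 4)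
    (htr : ∀ x y : Z, ∃ g : G, g • x = y) (hcardZ : Fintype.card Z = 6)
    (hk : ∀ g : G, (∀ x : X, g • x = x) ↔ ∀ z : Z, g • z = z) : False := by
  classical
  have hne : Nonempty Z := Fintype.card_pos_iff.1 (by omega)
  obtain ⟨z0⟩ := hne
  have hpre : MulAction.IsPretransitive G Z := ⟨htr⟩
  let K : Subgroup G := (MulAction.toPermHom G Z).ker
  have hK : ∀ g, g ∈ K ↔ ∀ z : Z, g • z = z := by
    intro g
    change (MulAction.toPermHom G Z) g = 1 ↔ _
    constructor
    · intro h z
      exact Equiv.Perm.ext_iff.1 h z
    · intro h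
      ext z
      exact h z
  have h1 : K ≤ MulAction.stabilizer G z0 := fun g hg => (hK g).1 hg z0
  have h2 := Subgroup.relIndex_mul_index h1
  rw [MulAction.index_stabilizer_of_transitive, Nat.card_eq_fintype_card, hcardZ] at h2
  have h3 : 3 ∣ Nat.card (G ⧸ K) := by
    change 3 ∣ K.index
    rw [← h2]
    exact Dvd.dvd.mul_left (by norm_num) _
  have hp : Fact (Nat.Prime 3) := ⟨Nat.prime_three⟩
  obtain ⟨q, hq⟩ := exists_prime_orderOf_dvd_card' 3 h3
  obtain ⟨g, rfl⟩ := QuotientGroup.mk_surjective q
  have h4 : g ^ 3 ∈ K := by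
    rw [← QuotientGroup.eq_one_iff, QuotientGroup.mk_pow, ← hq, pow_orderOf_eq_one]
  have h5 : g ∉ K := by
    intro h
    rw [(QuotientGroup.eq_one_iff g).2 h, orderOf_one] at hq
    norm_num at hq
  apply h5
  rw [hK, ← hk]
  exact cube_four c hset hcard g ((hk _).2 ((hK _).1 h4))

end Pool.Agent.TH117.F5
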