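import Pool.Agent.W495.TC.Main
import Pool.Agent.TH117.F5.Reduce

/-!
# Monomials on abelian varieties over finite fields: weights, small dimension, small factors
-/

set_option autoImplicit false
set_option linter.unusedSectionVars false
set_option linter.unusedVariables false

namespace Pool.Agent.TH117.F5

open NumberField Pool.Agent.H204R3.CM Pool.Agent.W547.KB Pool.Agent.W547.LD Module
  Pool.Agent.W495.TA Pool.Agent.W495.TB Pool.Agent.W495.TC
open scoped TensorProduct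

noncomputable section

variable {p : ℕ} [Fact p.Prime] {ν : PadicAlgCl p ≃+* ℂ} {Ω : Type} [Field Ω] [CharZero Ω]
  {L : Type} [Field L] [NumberField L] [IsCMField L] [IsGalois ℚ L] (j : L →+* ℂ) (jO : L →+* Ω)

theorem closedM : Closed (L ≃ₐ[ℚ] L) (AlgM p ν j jO) := by
  obtain ⟨c1, c2, c3, c4⟩ := Pool.Agent.W333.TA.closed1 Pool.Agent.W366.TA.val
    Pool.Agent.W64.TA.ru p ν Ω L j jO
  exact ⟨c1, c2, c3, c4⟩

/-- Balanced families of at most eight weights of a product. -/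
theorem algM_four (X : CMAV) [Fintype (Wt X L)] (hcard : Fintype.card (Wt X L) ≤ 8) (κ : Type)
    [Fintype κ] (I : κ → Wt X L) (hI : Function.Injective I)
    (hbal : ∀ g, ∑ k, tf p ν j (St j (I k)) g = 0) (heven : Even (Fintype.card κ)) :
    AlgM p ν j jO κ (fun k => tf p ν j (St j (I k))) := by
  classical
  refine @Pool.Agent.W515.TB.comb4 (L ≃ₐ[ℚ] L) (Wt X L) _ _ _ _ (cc L) (fun g => cc_comm j g) cc_cc
    (cc_ne_wt j X) (fun w => tf p ν j (St j w)) (fun g h w => tf_smul_wt j X w g h)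
    (fun w g => tf_cc_wt j X w g) hcard (AlgM p ν j jO) (closedM j jO) ?_ κ _ I hI hbal heven
  intro s' hs' hzero hst hrel
  have hb := block Pool.Agent.W366.TA.val Pool.Agent.W64.TA.ru Pool.Agent.W67.TA.basis
    Pool.Agent.W82.TA.pull Pool.Agent.W333.TA.closed1
    Pool.Agent.W976.TA.push Pool.Agent.W636.TB.flip2
    Pool.Agent.W918.TB.orb Pool.Agent.W902.TB.honda Pool.Agent.W177.TB.weilG
    Pool.Agent.W287.TBSS.ss2 p ν Ω L j jO X s' hs' hst hrel _ rfl
  exact hb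

/-- The product of the factors different from `l`. -/
def dropX (X : CMAV) (l : X.I) : CMAV where
  I := {k : X.I // k ≠ l}
  fintype := Fintype.ofFinite _
  factor k := X.factor k.1

theorem card_sigma_drop (X : CMAV) (l : X.I) [Fintype (Wt X L)] [Fintype (Wt (dropX X l) L)]
    [Fintype ((X.factor l).E →+* L)] :
    Fintype.card (Wt (dropX X l) L) + Fintype.card ((X.factor l).E →+* L) =
      Fintype.card (Wt X L) := by
  classical
  rw [← Fintype.card_sum]
  refine Fintype.card_congr ?_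
  refine Equiv.ofBijective (Sum.elim (fun w => (⟨w.1.1, w.2⟩ : Wt X L)) fun φ => ⟨l, φ⟩) ⟨?_, ?_⟩
  · rintro (⟨⟨a, ha⟩, φ⟩ | φ) (⟨⟨b, hb⟩, ψ⟩ | ψ) h
    · change (⟨a, φ⟩ : Wt X L) = ⟨b, ψ⟩ at h
      obtain ⟨h1, h2⟩ := Sigma.mk.inj_iff.1 h
      subst h1
      rw [eq_of_heq h2]
    · change (⟨a, φ⟩ : Wt X L) = ⟨l, ψ⟩ at h
      exact absurd (Sigma.mk.inj_iff.1 h).1 ha
    · change (⟨l, φ⟩ : Wt X L) = ⟨b, ψ⟩ at h
      exact absurd (Sigma.mk.inj_iff.1 h).1.symm hb
    · change (⟨l, φ⟩ : Wt X L) = ⟨l, ψ⟩ at h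
      rw [eq_of_heq (Sigma.mk.inj_iff.1 h).2]
  · rintro ⟨a, φ⟩
    by_cases ha : a = l
    · subst ha
      exact ⟨Sum.inr φ, rfl⟩
    · exact ⟨Sum.inl ⟨⟨a, ha⟩, φ⟩, rfl⟩

/-- Relations between the weights of the other factors. -/
theorem algM_drop (X : CMAV) (l : X.I) [Fintype (Wt X L)]
    [Fintype ((X.factor l).E →+* L)]
    (hcard : Fintype.card (Wt X L) ≤ 8 + Fintype.card ((X.factor l).E →+* L)) (κ : Type)
    [Fintype κ] (I : κ → Wt X L) (hI : Function.Injective I)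
    (hbal : ∀ g, ∑ k, tf p ν j (St j (I k)) g = 0) (heven : Even (Fintype.card κ))
    (hl : ∀ k, (I k).1 ≠ l) :
    AlgM p ν j jO κ (fun k => tf p ν j (St j (I k))) := by
  classical
  have hfin : Finite (Wt (dropX X l) L) := by
    refine Finite.of_injective (fun w => (⟨w.1.1, w.2⟩ : Wt X L)) ?_
    rintro ⟨⟨a, ha⟩, φ⟩ ⟨⟨b, hb⟩, ψ⟩ h
    change (⟨a, φ⟩ : Wt X L) = ⟨b, ψ⟩ at h
    obtain ⟨h1, h2⟩ := Sigma.mk.inj_iff.1 h
    subst h1
    rw [eq_of_heq h2]
  let _ : Fintype (Wt (dropX X l) L) := Fintype.ofFinite _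
  have h1 := card_sigma_drop (L := L) X l
  let I' : κ → Wt (dropX X l) L := fun k => ⟨⟨(I k).1, hl k⟩, (I k).2⟩
  have hI' : Function.Injective I' := by
    intro a b h
    apply hI
    have h2 := congrArg (fun w : Wt (dropX X l) L => (⟨w.1.1, w.2⟩ : Wt X L)) h
    exact h2
  exact @algM_four p _ ν Ω _ _ L _ _ _ _ j jO (dropX X l) _ (by omega) κ _ I' hI' hbal heven

end

end Pool.Agent.TH117.F5
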