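import Pool.Agent.TH117.F5.Mono

/-!
# Monomials on products of factors of dimension at most three
-/

set_option autoImplicit false
set_option linter.unusedSectionVars false
set_option linter.unusedVariables false

namespace Pool.Agent.TH117.F5

open NumberField Pool.Agent.H204R3.CM Pool.Agent.W547.KB Pool.Agent.W547.LD Module
  Pool.Agent.W495.TA Pool.Agent.W495.TB Pool.Agent.W495.TC
open scoped TensorProduct

noncomputable section

variable {p : ℕ} [Fact p.Prime] {ν : PadicAlgCl p ≃+* ℂ} {Ω : Type} [Field Ω] [CharZero Ω]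
  {L : Type} [Field L] [NumberField L] [IsCMField L] [IsGalois ℚ L] (j : L →+* ℂ) (jO : L →+* Ω)

/-- The functions of a factor. -/
abbrev nn (p : ℕ) [Fact p.Prime] (ν : PadicAlgCl p ≃+* ℂ) (j : L →+* ℂ) (A : CMPair) :
    (A.E →+* L) → (L ≃ₐ[ℚ] L) → ℤ := nf (Dec p ν j) (eps j A)

/-- The two factors have functions that are not all equal up to sign, with the same kernel of the
action of the Galois group, and they have no common function. -/
structure IsBad (p : ℕ) [Fact p.Prime] (ν : PadicAlgCl p ≃+* ℂ) (j : L →+* ℂ) (A B : CMPair) :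
    Prop where
  wideA : Wide (nn p ν j A)
  wideB : Wide (nn p ν j B)
  ker : ∀ g : L ≃ₐ[ℚ] L, (∀ x, nn p ν j A (g • x) = nn p ν j A x) ↔
    ∀ x, nn p ν j B (g • x) = nn p ν j B x
  ne : ∀ φ φ', nn p ν j A φ ≠ nn p ν j B φ'

theorem IsBad.symm {A B : CMPair} {j : L →+* ℂ} (h : IsBad p ν j A B) : IsBad p ν j B A :=
  ⟨h.wideB, h.wideA, fun g => (h.ker g).symm, fun φ φ' h' => h.ne φ' φ h'.symm⟩

theorem nn_smul (A : CMPair) (φ : A.E →+* L) (g : L ≃ₐ[ℚ] L) :
    nn p ν j A (g • φ) = fun h => nn p ν j A φ (h * g) :=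
  funext fun h => nf_smul _ _ g h φ

/-- All balanced monomials, if no two factors are bad. -/
theorem small_ker (Y : RedAV p ν) (hYj : Big Y.X j)
    (hdeg : ∀ i, finrank ℚ (Y.X.factor i).E ≤ 6)
    (hbad : ∀ i k : Y.X.I, ¬ IsBad p ν j (Y.X.factor i) (Y.X.factor k))
    (κ : Type) [Fintype κ] (I : κ → Wt Y.X L)
    (hbal : ∀ g, ∑ k, tf p ν j (St j (I k)) g = 0) (heven : Even (Fintype.card κ)) :
    AlgM p ν j jO κ (fun k => tf p ν j (St j (I k))) := by
  classical
  -- the functions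
  let D := Dec p ν j
  let n : ∀ i : Y.X.I, ((Y.X.factor i).E →+* L) → (L ≃ₐ[ℚ] L) → ℤ := fun i φ =>
    nf D (eps j (Y.X.factor i)) φ
  have hn : ∀ (i : Y.X.I) (φ : (Y.X.factor i).E →+* L),
      tf p ν j (hs (Y.X.factor i) j φ) = n i φ := fun i φ => tf_hs j (Y.X.factor i) φ
  have hset : ∀ i : Y.X.I, Setting (L ≃ₐ[ℚ] L) ((Y.X.factor i).E →+* L) (cc L) := fun i =>
    setting j (Y.X.factor i)
  have hnsmul : ∀ (i : Y.X.I) (φ : (Y.X.factor i).E →+* L) (g : L ≃ₐ[ℚ] L),
      n i (g • φ) = fun h => n i φ (h * g) := by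
    intro i φ g
    funext h
    change nf D (eps j (Y.X.factor i)) (g • φ) h = nf D (eps j (Y.X.factor i)) φ (h * g)
    unfold nf
    refine Finset.sum_congr rfl fun d _ => ?_
    rw [mul_smul]
  -- isogenous factors
  let r : Setoid Y.X.I :=
    { r := fun i k => ∃ (φ : (Y.X.factor i).E →+* L) (φ' : (Y.X.factor k).E →+* L),
        n i φ = n k φ'
      iseqv := by
        refine ⟨fun i => ?_, ?_, ?_⟩
        · obtain ⟨ψ⟩ : Nonempty ((Y.X.factor i).E →+* ℂ) := inferInstance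
          obtain ⟨φ, -⟩ := hYj i ψ
          exact ⟨φ, φ, rfl⟩
        · rintro i k ⟨φ, φ', h⟩
          exact ⟨φ', φ, h.symm⟩
        · rintro i k l ⟨φ, φ', h⟩ ⟨ψ, ψ', h'⟩
          obtain ⟨g, hg⟩ := (hset k).trans ψ φ'
          refine ⟨φ, g • ψ', ?_⟩
          rw [h, ← hg, hnsmul, hnsmul, h'] }
  have hfin : ∀ i : Y.X.I, Finite ((Y.X.factor i).E →+* L) := by
    intro i
    refine Finite.of_injective (fun φ : (Y.X.factor i).E →+* L => j.comp φ) ?_
    intro φ φ' h
    ext a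
    exact j.injective (RingHom.congr_fun h a)
  let ι : Type := Quotient r
  have hι : Fintype ι := Fintype.ofFinite _
  let A : ι → CMPair := fun q => Y.X.factor q.out
  have hA : ∀ q, BigA (A q) j := fun q => hYj q.out
  have hXfin : ∀ q : ι, Fintype ((A q).E →+* L) := fun q => Fintype.ofFinite _
  have hcardA : ∀ q : ι, Fintype.card ((A q).E →+* L) ≤ 6 := fun q =>
    (card_emb (hA q)).trans_le (hdeg q.out)
  have hdisj : ∀ (q q' : ι) (x : (A q).E →+* L) (y : (A q').E →+* L),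
      nf D (eps j (A q)) x = nf D (eps j (A q')) y → q = q' := by
    intro q q' x y h
    have h3 : r.r q.out q'.out := ⟨x, y, h⟩
    exact Quotient.out_equiv_out.1 h3
  have hker : ∀ q q' : ι, Wide (nf (X := (A q).E →+* L) D (eps j (A q))) →
      Wide (nf (X := (A q').E →+* L) D (eps j (A q'))) →
      (∀ g : L ≃ₐ[ℚ] L, (∀ x, nf D (eps j (A q)) (g • x) = nf D (eps j (A q)) x) ↔
        ∀ x, nf D (eps j (A q')) (g • x) = nf D (eps j (A q')) x) → q = q' := by
    intro q q' hw hw' hk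
    by_contra hne
    exact hbad q.out q'.out ⟨hw, hw', hk, fun φ φ' h => hne (hdisj q q' φ φ' h)⟩
  refine @Pool.Agent.W959.TC.comb Pool.Agent.W21.TC.sep
    (Pool.Agent.W975.TC.single Pool.Agent.W495.TA.struct) Pool.Agent.W493.TC.group
    Pool.Agent.W493.TC.loc Pool.Agent.W493.TC.indep (L ≃ₐ[ℚ] L) _ _ (cc L) ι _
    (fun q => (A q).E →+* L) _ _ (fun q => hset q.out) D (fun q => eps j (A q))
    (fun q => isSign_eps j (A q)) hcardA hdisj hker (AlgM p ν j jO) (closedM j jO) ?_ ?_ κ _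
    (fun k => tf p ν j (St j (I k))) ?_ hbal heven
  · intro q ε' hε' x
    have h3 := Pool.Agent.W99.TC.cancel Pool.Agent.W902.TB.honda Pool.Agent.W366.TA.val
      Pool.Agent.W64.TA.ru Pool.Agent.W67.TA.basis Pool.Agent.W333.TA.closed1 p ν Ω L j jO
      (ys ε' x) (isHalf_ys hε' x)
    rw [tf_ys j hε'] at h3
    exact h3
  · intro q s' hs' hsemi hresp hc6 x₀ hx₀ F hF hF'
    intro _ _
    exact blockA Pool.Agent.W366.TA.val Pool.Agent.W64.TA.ru Pool.Agent.W67.TA.basis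
      Pool.Agent.W82.TA.pull Pool.Agent.W333.TA.closed1 Pool.Agent.W976.TA.push
      Pool.Agent.W636.TB.flip2 Pool.Agent.W918.TB.orb Pool.Agent.W902.TB.honda
      Pool.Agent.W177.TB.weilG Pool.Agent.W287.TBSS.ss2 Pool.Agent.W493.TC.loc p ν Ω L j jO
      (A q) s' hs' hsemi hresp hc6 x₀ hx₀ F hF hF'
  · intro k
    obtain ⟨i, φ⟩ := I k
    have h3 : r.r (Quotient.mk r i).out i := Quotient.mk_out i
    obtain ⟨ψ, ψ', h4⟩ := h3
    obtain ⟨g, hg⟩ := (hset i).trans ψ' φ
    refine ⟨Quotient.mk r i, g • ψ, ?_⟩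
    have h5 : tf p ν j (St j (⟨i, φ⟩ : Wt Y.X L)) = n i φ := hn i φ
    rw [h5, ← hg, hnsmul, ← h4]
    exact (hnsmul (Quotient.mk r i).out ψ g).symm

end

end Pool.Agent.TH117.F5
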